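import Pool.Agent.H95.ZW.LOW

/-!
# Characters at the point `1 + p π ^ (i + 1)`
-/

open Filter Topology MvPolynomial

namespace Pool.Agent.H16.ZW

open Pool.Agent.H95.ZW
open Pool.Agent.H12.ZD (v emb v_nonneg v_zero v_one v_neg v_mul v_pow v_inv v_add_le v_sub_le
  v_add_le' v_sub_le' v_eq_of_sub_lt v_self v_eq_zero v_pos v_sub_comm v_add_lt v_sub_lt)

theorem v_one_of_close (p : Nat.Primes) {x : Qb} (hx : v p (x - 1) < 1) : v p x = 1 := by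
  rw [v_eq_of_sub_lt p (y := 1) (by rwa [v_one]), v_one]

theorem v_zpow_sub_one (hPW : T_PW) (p : Nat.Primes) (hp : (p : ℕ) ≠ 2) (x : Qb)
    (hx : v p (x - 1) ≤ ((p : ℕ) : ℝ)⁻¹) (n : ℤ) :
    v p (x ^ n - 1) = v p (n : Qb) * v p (x - 1) := by
  have hp1 : (1 : ℝ) < (p : ℝ) := by exact_mod_cast p.2.one_lt
  have hv : v p x = 1 := v_one_of_close p (hx.trans_lt (inv_lt_one_of_one_lt₀ hp1))
  have hx0 : x ≠ 0 := by
    intro h
    rw [h, v_zero] at hv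
    exact zero_ne_one hv
  obtain ⟨m, rfl | rfl⟩ := n.eq_nat_or_neg
  · rw [zpow_natCast, Int.cast_natCast]
    exact v_pow_sub_one hPW p hp x hx m
  · rw [zpow_neg, zpow_natCast, Int.cast_neg, Int.cast_natCast, v_neg]
    rw [← v_pow_sub_one hPW p hp x hx m]
    have h1 : (x ^ m)⁻¹ - 1 = -((x ^ m)⁻¹ * (x ^ m - 1)) := by
      have : x ^ m ≠ 0 := pow_ne_zero _ hx0
      field_simp
      ring
    rw [h1, v_neg, v_mul, v_inv, v_pow, hv, one_pow, inv_one, one_mul]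

theorem v_prod_lt (p : Nat.Primes) {ι : Type} [DecidableEq ι] (s : Finset ι) (f : ι → Qb) (ρ : ℝ)
    (hρ : 0 < ρ) (hρ1 : ρ ≤ 1) (h : ∀ i ∈ s, v p (f i - 1) < ρ) :
    v p (∏ i ∈ s, f i - 1) < ρ := by
  induction s using Finset.induction_on with
  | empty => rwa [Finset.prod_empty, sub_self, v_zero]
  | insert i s hi ih =>
    rw [Finset.prod_insert hi]
    have h1 := ih fun j hj => h j (Finset.mem_insert_of_mem hj)
    have h2 : f i * ∏ j ∈ s, f j - 1 = (f i - 1) * ∏ j ∈ s, f j + (∏ j ∈ s, f j - 1) := by ring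
    rw [h2]
    refine v_add_lt p ?_ h1
    rw [v_mul, v_one_of_close p (h1.trans_le hρ1), mul_one]
    exact h i (Finset.mem_insert_self i s)

theorem bet (hPW : T_PW) : T_BET := by
  classical
  intro p N l π hp hl hN hπ a ha
  have hp1 : (1 : ℝ) < (p : ℝ) := by exact_mod_cast p.2.one_lt
  have hp0 : (0 : ℝ) < (p : ℝ) := by linarith
  have hpi : (p : ℝ)⁻¹ < 1 := inv_lt_one_of_one_lt₀ hp1
  have hpi0 : (0 : ℝ) < (p : ℝ)⁻¹ := inv_pos.2 hp0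
  have hπl : v p π ^ l = (p : ℝ)⁻¹ := by rw [← v_pow, hπ, v_self]
  have hπ1 : v p π < 1 := by
    by_contra hcon
    rw [not_lt] at hcon
    have h2 : 1 ≤ v p π ^ l := one_le_pow₀ hcon
    rw [hπl] at h2
    exact absurd h2 (not_le.2 hpi)
  have hπ0 : 0 < v p π := by
    rcases (v_nonneg p π).lt_or_eq with h | h
    · exact h
    · rw [← h, zero_pow hl.ne_zero] at hπl
      exact absurd hπl hpi0.ne
  obtain ⟨i₀, hi₀, hmin⟩ : ∃ i₀ : Fin N, ¬ ((p : ℕ) : ℤ) ∣ a i₀ ∧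
      ∀ i : Fin N, i < i₀ → ((p : ℕ) : ℤ) ∣ a i := by
    have hne : (Finset.univ.filter fun i : Fin N => ¬ ((p : ℕ) : ℤ) ∣ a i).Nonempty := by
      by_contra hcon
      rw [Finset.not_nonempty_iff_eq_empty, Finset.filter_eq_empty_iff] at hcon
      exact ha fun i => not_not.1 (hcon (Finset.mem_univ i))
    obtain ⟨i₀, h1, h2⟩ := Finset.exists_min_image _ (fun i : Fin N => i) hne
    refine ⟨i₀, (Finset.mem_filter.1 h1).2, fun i hi => ?_⟩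
    by_contra hcon
    exact absurd (h2 i (Finset.mem_filter.2 ⟨Finset.mem_univ i, hcon⟩)) (not_le.2 hi)
  set b : Fin N → Qb := fun i : Fin N => 1 + ((p : ℕ) : Qb) * π ^ ((i : ℕ) + 1) with hb
  have hbv : ∀ i, v p (b i - 1) = (p : ℝ)⁻¹ * v p π ^ ((i : ℕ) + 1) := by
    intro i
    simp only [hb]
    rw [add_sub_cancel_left, v_mul, v_self, v_pow]
  have hb1 : ∀ i, v p (b i - 1) ≤ (p : ℝ)⁻¹ := by
    intro i
    rw [hbv]
    exact mul_le_of_le_one_right hpi0.le (pow_le_one₀ hπ0.le hπ1.le)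
  have hf : ∀ i, v p (b i ^ a i - 1) =
      v p ((a i : ℤ) : Qb) * ((p : ℝ)⁻¹ * v p π ^ ((i : ℕ) + 1)) := by
    intro i
    rw [v_zpow_sub_one hPW p hp (b i) (hb1 i), hbv]
  set ρ : ℝ := (p : ℝ)⁻¹ * v p π ^ ((i₀ : ℕ) + 1) with hρ
  have hρ0 : 0 < ρ := mul_pos hpi0 (pow_pos hπ0 _)
  have hρ1 : ρ < 1 := lt_of_le_of_lt
    (mul_le_of_le_one_right hpi0.le (pow_le_one₀ hπ0.le hπ1.le)) hpi
  have hunit : v p ((a i₀ : ℤ) : Qb) = 1 := by
    have h1 : v p (((a i₀).natAbs : ℕ) : Qb) = 1 := by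
      refine Pool.Agent.H12.ZD.v_natCast_eq p fun h => hi₀ ?_
      exact Int.natCast_dvd.2 h
    rcases Int.natAbs_eq (a i₀) with h2 | h2
    · rw [h2, Int.cast_natCast]
      exact h1
    · rw [h2, Int.cast_neg, Int.cast_natCast, v_neg]
      exact h1
  have hi0 : v p (b i₀ ^ a i₀ - 1) = ρ := by rw [hf, hunit, one_mul]
  have hother : ∀ i ∈ Finset.univ.erase i₀, v p (b i ^ a i - 1) < ρ := by
    intro i hi
    rw [hf]
    rcases lt_or_gt_of_ne (Finset.ne_of_mem_erase hi) with h | h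
    · obtain ⟨q, hq⟩ := hmin i h
      have h1 : v p ((a i : ℤ) : Qb) ≤ (p : ℝ)⁻¹ := by
        rw [hq, Int.cast_mul, v_mul, Int.cast_natCast, v_self]
        exact mul_le_of_le_one_right hpi0.le (Pool.Agent.H12.ZD.v_intCast_le p q)
      have h2 : v p π ^ l < v p π ^ ((i₀ : ℕ) + 1) :=
        pow_lt_pow_right_of_lt_one₀ hπ0 hπ1 (by have := i₀.2; omega)
      rw [hπl] at h2
      have h3 : v p π ^ ((i : ℕ) + 1) ≤ 1 := pow_le_one₀ hπ0.le hπ1.le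
      have h4 : 0 ≤ v p π ^ ((i : ℕ) + 1) := pow_nonneg hπ0.le _
      calc v p ((a i : ℤ) : Qb) * ((p : ℝ)⁻¹ * v p π ^ ((i : ℕ) + 1))
          ≤ (p : ℝ)⁻¹ * ((p : ℝ)⁻¹ * 1) := by gcongr
        _ = (p : ℝ)⁻¹ * (p : ℝ)⁻¹ := by rw [mul_one]
        _ < (p : ℝ)⁻¹ * v p π ^ ((i₀ : ℕ) + 1) := by gcongr
    · have h1 : v p ((a i : ℤ) : Qb) ≤ 1 := Pool.Agent.H12.ZD.v_intCast_le p (a i)
      have h2 : v p π ^ ((i : ℕ) + 1) < v p π ^ ((i₀ : ℕ) + 1) :=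
        pow_lt_pow_right_of_lt_one₀ hπ0 hπ1 (by
          have : (i₀ : ℕ) < (i : ℕ) := h
          omega)
      have h4 : 0 ≤ v p π ^ ((i : ℕ) + 1) := pow_nonneg hπ0.le _
      calc v p ((a i : ℤ) : Qb) * ((p : ℝ)⁻¹ * v p π ^ ((i : ℕ) + 1))
          ≤ 1 * ((p : ℝ)⁻¹ * v p π ^ ((i : ℕ) + 1)) := by gcongr
        _ = (p : ℝ)⁻¹ * v p π ^ ((i : ℕ) + 1) := one_mul _
        _ < (p : ℝ)⁻¹ * v p π ^ ((i₀ : ℕ) + 1) := by gcongr
  have hrest := v_prod_lt p _ (fun i => b i ^ a i) ρ hρ0 hρ1.le hother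
  refine ⟨i₀, ?_⟩
  have h1 : v p (mon b a - 1) = ρ := by
    have h2 : mon b a - 1 = (b i₀ ^ a i₀ - 1) * ∏ i ∈ Finset.univ.erase i₀, b i ^ a i +
        (∏ i ∈ Finset.univ.erase i₀, b i ^ a i - 1) := by
      unfold mon
      rw [← Finset.mul_prod_erase _ _ (Finset.mem_univ i₀)]
      ring
    have h3 : v p ((b i₀ ^ a i₀ - 1) * ∏ i ∈ Finset.univ.erase i₀, b i ^ a i) = ρ := by
      rw [v_mul, v_one_of_close p (hrest.trans hρ1), mul_one, hi0]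
    rw [h2, v_eq_of_sub_lt p (y := (b i₀ ^ a i₀ - 1) * ∏ i ∈ Finset.univ.erase i₀, b i ^ a i),
      h3]
    rw [add_sub_cancel_left, h3]
    exact hrest
  rw [h1, hρ, mul_pow, ← pow_mul, mul_comm ((i₀ : ℕ) + 1) l, pow_mul, hπl, ← pow_add]

end Pool.Agent.H16.ZW
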