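import Pool.Agent.H16.ZW.Defs

/-!
# Zariski dense orbits of rational maps with a monomial leading part: targets
-/

open Filter Topology MvPolynomial

namespace Pool.Agent.H16.ZW

open Pool.Agent.H12.ZD (v emb)

/-! ## Part I: complete fields -/

/-- PW: powers of elements of `1 + pO` -/
def T_PW : Prop := ∀ (p : ℕ) (K : Type) [NormedField K] [IsUltrametricDist K], PK p K →
  (∀ n : ℕ, ‖(n : K)‖ ≤ 1) ∧ (∀ n : ℕ, ¬ p ∣ n → ‖(n : K)‖ = 1) ∧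
  ∀ x : K, ‖x - 1‖ ≤ (p : ℝ)⁻¹ → ∀ n : ℕ, ‖x ^ n - 1‖ = ‖(n : K)‖ * ‖x - 1‖

/-- LG: the logarithm on `1 + pO` -/
def T_LG : Prop := ∀ (p : ℕ) (K : Type) [NormedField K] [CompleteSpace K]
  [IsUltrametricDist K], PK p K → ∃ Lg : K → K,
  (∀ x, ‖x - 1‖ ≤ (p : ℝ)⁻¹ → ‖Lg x‖ = ‖x - 1‖ ∧
    ∀ T : ℕ, ‖(x ^ p ^ T - 1) / (p : K) ^ T - Lg x‖ ≤ ((p : ℝ)⁻¹) ^ (T + 1) * ‖x - 1‖) ∧
  ∀ x y, ‖x - 1‖ ≤ (p : ℝ)⁻¹ → ‖y - 1‖ ≤ (p : ℝ)⁻¹ → Lg (x * y) = Lg x + Lg y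

/-- MV: divisibility of the geometric sums of a matrix congruent to `1` -/
def T_MV : Prop := ∀ (p m : ℕ) (C : Matrix (Fin m) (Fin m) ℤ), p.Prime → p ≠ 2 →
  DvM p (C - 1) → ∃ V : ℕ → Matrix (Fin m) (Fin m) ℤ, VS p C V

/-- KAP: the logarithmic derivative of the functions `j ↦ ρ (a geo C j)` -/
def T_KAP : Prop := ∀ (p m : ℕ) (K : Type) [NormedField K] [CompleteSpace K]
  [IsUltrametricDist K], PK p K → ∀ (C : Matrix (Fin m) (Fin m) ℤ)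
  (V : ℕ → Matrix (Fin m) (Fin m) ℤ), VS p C V → ∀ (ρ : (Fin m → ℤ) → K), Chr p ρ →
  ∃ κ : Fin m → K, Kap p C ρ κ ∧ ∀ a : Fin m → ℤ,
    Tendsto (fun T : ℕ => ‖ρ (Matrix.vecMul a (V T)) - 1‖) atTop (𝓝 ‖∑ i, (a i : K) * κ i‖)

/-- BLM: the logarithm of a matrix congruent to `1` -/
def T_BLM : Prop := ∀ (p m : ℕ) (K : Type) [NormedField K] [CompleteSpace K]
  [IsUltrametricDist K], PK p K → ∀ (C : Matrix (Fin m) (Fin m) ℤ)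
  (V : ℕ → Matrix (Fin m) (Fin m) ℤ), VS p C V → ∃ B : Matrix (Fin m) (Fin m) K, Blm p C B

/-- CHD: derivatives of the functions `j ↦ ρ (a geo C j)` and of the entries of `C ^ j` -/
def T_CHD : Prop := ∀ (p m : ℕ) (K : Type) [NormedField K] [CompleteSpace K]
  [IsUltrametricDist K], PK p K → ∀ (C : Matrix (Fin m) (Fin m) ℤ) (ρ : (Fin m → ℤ) → K)
  (κ : Fin m → K) (B : Matrix (Fin m) (Fin m) K), Chr p ρ → Kap p C ρ κ → Blm p C B →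
  (∀ (u : K) (a : Fin m → ℤ), Der p (fun j => u * ρ (Matrix.vecMul a (geo C j)))
    (fun j => (∑ i, ((Matrix.vecMul a (C ^ j) i : ℤ) : K) * κ i) *
      (u * ρ (Matrix.vecMul a (geo C j))))) ∧
  (∀ (a : Fin m → ℤ) (x : Fin m → K),
    Der p (fun j => ∑ i, ((Matrix.vecMul a (C ^ j) i : ℤ) : K) * x i)
      (fun j => ∑ i, ((Matrix.vecMul a (C ^ j) i : ℤ) : K) * (B.mulVec x) i))

/-- TAY: a relation between functions gives a relation between their Taylor series -/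
def T_TAY : Prop := ∀ (p : ℕ) (K : Type) [NormedField K] [CompleteSpace K]
  [IsUltrametricDist K] [CharZero K], PK p K → ∀ (ι : Type) (S : Finset ι) (χ : ι → ℕ → K)
  (t : ι → ℕ → ℕ → K) (r : ι → K) (Y : ι → PowerSeries K),
  (∀ i ∈ S, Der p (χ i) (fun j => t i 0 j * χ i j)) →
  (∀ i ∈ S, ∀ n, Der p (t i n) (t i (n + 1))) →
  (∀ i ∈ S, PowerSeries.derivative K (Y i) =
    PowerSeries.mk (fun n => t i n 0 / (n.factorial : K)) * Y i) →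
  (∀ i ∈ S, PowerSeries.constantCoeff (Y i) = χ i 0) →
  (∀ j, ∑ i ∈ S, r i * χ i j = 0) → ∑ i ∈ S, PowerSeries.C (r i) * Y i = 0

/-- EE: formal exponential polynomials -/
def T_EE : Prop := ∀ (K : Type) [Field K] [CharZero K],
  (∀ x y : EE K, DD (x + y) = DD x + DD y) ∧
  (∀ x y : EE K, DD (x * y) = DD x * y + x * DD y) ∧
  (∀ x : EE K, PowerSeries.derivative K (ii K x) = ii K (DD x)) ∧
  Function.Injective (ii K) ∧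
  (∀ b : K, ii K (.single b 1) = ee b) ∧
  (∀ c : K, ii K (.single 0 (Polynomial.C c)) = PowerSeries.C c) ∧
  (∀ b : K, PowerSeries.derivative K (ee b) = PowerSeries.C b * ee b) ∧
  (∀ b : K, PowerSeries.constantCoeff (ee b) = 1)

/-- ORD: logarithmic derivatives which are exponential polynomials are constant -/
def T_ORD : Prop := ∀ (K : Type) [Field K] [CharZero K] (a b T : EE K), a ≠ 0 → b ≠ 0 →
  b * DD a - a * DD b + T * a * b = 0 → ∃ τ : K, T = .single 0 (Polynomial.C τ)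

/-- KO: linear independence of exponentials over the exponential polynomials
(Kolchin, Ostrowski) -/
def T_KO : Prop := ∀ (K : Type) [Field K] [CharZero K] (ι : Type) (S : Finset ι)
  (X : ι → PowerSeries K) (T f : ι → EE K), (∀ i ∈ S, X i ≠ 0) →
  (∀ i ∈ S, PowerSeries.derivative K (X i) = ii K (T i) * X i) →
  (∀ i ∈ S, ∀ j ∈ S, i ≠ j → ∀ τ : K, T i - T j ≠ .single 0 (Polynomial.C τ)) →
  ∑ i ∈ S, ii K (f i) * X i = 0 → ∀ i ∈ S, f i = 0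

/-- TIE: solutions of linear differential equations with constant coefficients -/
def T_TIE : Prop := ∀ (K : Type) [Field K] [IsAlgClosed K] [CharZero K] (m : ℕ)
  (B : Matrix (Fin m) (Fin m) K) (a b : Fin m → K), ∃ T : EE K,
  ii K T = PowerSeries.mk (fun n => (∑ i, a i * ((B ^ n).mulVec b) i) / (n.factorial : K))

/-- EXQ: existence and uniqueness for `Y' = T Y` -/
def T_EXQ : Prop := ∀ (K : Type) [Field K] [CharZero K] (T : PowerSeries K) (c : K),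
  ∃! Y : PowerSeries K, PowerSeries.derivative K Y = T * Y ∧ PowerSeries.constantCoeff Y = c

/-- LNF: the characters are linearly independent -/
def T_LNF : Prop := ∀ (K : Type) [Field K] [CharZero K] (m : ℕ)
  (X : (Fin m → ℤ) → PowerSeries K) (T : (Fin m → ℤ) → EE K),
  (∀ a b, X (a + b) = X a * X b) → (∀ a b, T (a + b) = T a + T b) →
  (∀ a, PowerSeries.derivative K (X a) = ii K (T a) * X a) →
  (∀ a, PowerSeries.constantCoeff (X a) ≠ 0) →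
  (∀ a, a ≠ 0 → PowerSeries.constantCoeff (ii K (T a)) ≠ 0) →
  ∀ (S : Finset (Fin m → ℤ)) (r : (Fin m → ℤ) → K),
    ∑ a ∈ S, PowerSeries.C (r a) * X a = 0 → ∀ a ∈ S, r a = 0

/-! ## Part II: the orbit -/

/-- MON: elementary facts on monomials -/
def T_MON : Prop := ∀ (N : ℕ),
  (∀ (F : Type) [Field F] (x : Fin N → F) (a b : Fin N → ℤ), (∀ i, x i ≠ 0) →
    mon x (a + b) = mon x a * mon x b) ∧
  (∀ (F : Type) [Field F] (x : Fin N → F) (a : Fin N → ℤ) (n : ℕ),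
    mon x (n • a) = mon x a ^ n ∧ mon (fun i => x i ^ n) a = mon x a ^ n) ∧
  (∀ (F : Type) [Field F] (x y : Fin N → F) (a : Fin N → ℤ),
    mon (fun i => x i * y i) a = mon x a * mon y a) ∧
  (∀ (F : Type) [Field F] (x : Fin N → F) (A : Matrix (Fin N) (Fin N) ℤ) (a : Fin N → ℤ),
    (∀ i, x i ≠ 0) → mon (fun i => mon x (A i)) a = mon x (Matrix.vecMul a A)) ∧
  (∀ (F : Type) [Field F] (s : F) (w a : Fin N → ℤ), s ≠ 0 →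
    mon (fun i => s ^ w i) a = s ^ ∑ i, a i * w i) ∧
  (∀ (p : Nat.Primes) (x y : Fin N → Qb) (a : Fin N → ℤ) (ε : ℝ), ε ≤ 1 →
    (∀ i, v p (x i) = 1) → (∀ i, v p (y i) = 1) → v p (mon x a) = 1 ∧
    ((∀ i, v p (x i - y i) < ε) → 0 < ε → v p (mon x a - mon y a) < ε) ∧
    ((∀ i, v p (x i - y i) ≤ ε) → 0 ≤ ε → v p (mon x a - mon y a) ≤ ε))

/-- EVL: values of polynomials at scaled points -/
def T_EVL : Prop := ∀ (N : ℕ) (w : Fin N → ℤ) (G : MvPolynomial (Fin N) Qb) (a : ℤ)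
  (p : Nat.Primes) (t : Qb) (y : Fin N → Qb), t ≠ 0 →
  (Hom w G a → eval (fun i => t ^ w i * y i) G = t ^ a * eval y G) ∧
  (Low w G a → (∀ m, v p (coeff m G) ≤ 1) → (∀ i, v p (y i) ≤ 1) → 1 ≤ v p t →
    v p (eval (fun i => t ^ w i * y i) G) ≤ v p t ^ (a - 1)) ∧
  (∀ z : Fin N → Qb, (∀ m, v p (coeff m G) ≤ 1) → (∀ i, v p (y i) ≤ 1) →
    (∀ i, v p (z i) ≤ 1) → v p (eval y G) ≤ 1 ∧
    ((∀ i, v p (y i - z i) < 1) → v p (eval y G - eval z G) < 1))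

/-- ORB: the orbit stays close to infinity and follows the residual orbit -/
def T_ORB : Prop := ∀ (N : ℕ) (D : Dat N), D.Ok → ∀ (p : Nat.Primes) (q : ℕ → Fin N → Qb),
  GoodP p D q → ∀ (x y₀ : Fin N → Qb), (∀ i, x i = t0 p ^ D.w i * y₀ i) →
  (∀ i, v p (y₀ i - q 0 i) < 1) → ∃ y : ℕ → Fin N → Qb, y 0 = y₀ ∧ Orb p D q x y

/-- PSI: characters along the orbit -/
def T_PSI : Prop := ∀ (N : ℕ) (D : Dat N), D.Ok → ∀ (p : Nat.Primes) (q : ℕ → Fin N → Qb),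
  GoodP p D q → ∀ (x : Fin N → Qb) (y : ℕ → Fin N → Qb), Orb p D q x y →
  CS p D.w D.A D.c D.δ y ∧ ∀ n γ, Ort D.w γ → v p (mon (y n) γ - mon (q n) γ) < 1

/-- REL: a polynomial vanishing on the orbit gives a relation between characters -/
def T_REL : Prop := ∀ (N : ℕ) (D : Dat N), D.Ok → ∀ (p : Nat.Primes) (q : ℕ → Fin N → Qb)
  (x : Fin N → Qb) (y : ℕ → Fin N → Qb), Orb p D q x y → ∀ R : MvPolynomial (Fin N) Qb,
  R ≠ 0 → (∀ n, eval (D.map^[n] x) R = 0) →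
  ∃ (S : Finset (Fin N → ℤ)) (r : (Fin N → ℤ) → Qb), S.Nonempty ∧ (∀ γ ∈ S, r γ ≠ 0) ∧
    (∀ γ ∈ S, Ort D.w γ) ∧
    Tendsto (fun n => v p (∑ γ ∈ S, r γ * mon (y n) γ)) atTop (𝓝 0)

/-! ## Points modulo primes -/

/-- GRD: Laurent polynomials do not vanish on large grids -/
def T_GRD : Prop := ∀ (κ : Type) [Field κ] (N M : ℕ) (S : Finset (Fin N → ℤ))
  (g : (Fin N → ℤ) → κ) (B : Fin N → Finset κ), S.Nonempty → (∀ e ∈ S, g e ≠ 0) →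
  (∀ e ∈ S, ∀ i, |e i| ≤ M) → (∀ i, ∀ x ∈ B i, x ≠ 0) → (∀ i, 2 * M < (B i).card) →
  ∃ t : Fin N → κ, (∀ i, t i ∈ B i) ∧ ∑ e ∈ S, g e * mon t e ≠ 0

/-- ADJ: the adjugate of `Q - A` for large `Q` -/
def T_ADJ : Prop := ∀ (N M : ℕ) (A : Matrix (Fin N) (Fin N) ℤ), ∃ Q₀ : ℕ, ∀ Q : ℕ, Q₀ ≤ Q →
  ((Q : ℤ) • (1 : Matrix (Fin N) (Fin N) ℤ) - A).det ≠ 0 ∧
  ∀ e : Fin N → ℤ, (∀ i, |e i| ≤ M) → ∀ j,
    2 * |Matrix.vecMul e (((Q : ℤ) • (1 : Matrix (Fin N) (Fin N) ℤ) - A).adjugate) j| <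
      |((Q : ℤ) • (1 : Matrix (Fin N) (Fin N) ℤ) - A).det|

/-- FTX: points moved by a monomial map as by Frobenius -/
def T_FTX : Prop := ∀ (κ : Type) [Field κ] [IsAlgClosed κ] (p : ℕ) [CharP κ p], p.Prime →
  (∀ a : κ, a ≠ 0 → ∃ n : ℕ, 1 ≤ n ∧ a ^ n = 1) → ∀ (N : ℕ) (A : Matrix (Fin N) (Fin N) ℤ),
  ¬ (p : ℤ) ∣ A.det → ∀ c : Fin N → κ, (∀ i, c i ≠ 0) → ∀ G : MvPolynomial (Fin N) κ, G ≠ 0 →
  ∃ (x : Fin N → κ) (r : ℕ), 1 ≤ r ∧ (∀ i, x i ≠ 0) ∧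
    (∀ i, c i * mon x (A i) = x i ^ p ^ r) ∧ (∀ i, c i ^ p ^ r = c i) ∧
    (∀ m, coeff m G ^ p ^ r = coeff m G) ∧ eval x G ≠ 0

/-- FRB: residual orbits -/
def T_FRB : Prop := ∀ (N : ℕ) (A : Matrix (Fin N) (Fin N) ℤ), A.det ≠ 0 →
  ∀ c : Fin N → Qb, (∀ i, c i ≠ 0) → ∀ G : MvPolynomial (Fin N) Qb, G ≠ 0 →
  ∃ M : ℕ, ∀ p : Nat.Primes, M < (p : ℕ) → ∃ (ξ : Fin N → Qb) (L r : ℕ), 1 ≤ r ∧ 1 ≤ L ∧
    ¬ (p : ℕ) ∣ L ∧ (∀ i, ξ i ^ L = 1) ∧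
    ∀ n, v p (eval (fun i => ξ i ^ ((p : ℕ) ^ r) ^ n) G) = 1 ∧
      ∀ i, v p (c i * mon (fun i => ξ i ^ ((p : ℕ) ^ r) ^ n) (A i) -
        ξ i ^ ((p : ℕ) ^ r) ^ (n + 1)) < 1

/-! ## Lower bounds and limits -/

/-- UN: a finitely generated group of units is uniformly away from the boundary of `1 + 𝔪` -/
def T_UN : Prop := ∀ (p : Nat.Primes) (s : ℕ) (g : Fin s → Qb), (∀ i, v p (g i) = 1) →
  ∃ θ : ℝ, 0 ≤ θ ∧ θ < 1 ∧ ∀ a : Fin s → ℤ, v p (mon g a - 1) < 1 → v p (mon g a - 1) ≤ θ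

/-- VG: value groups of number fields -/
def T_VG : Prop := ∀ (N : ℕ) (c : Fin N → Qb), ∃ D : ℕ, 1 ≤ D ∧ ∀ (p : Nat.Primes)
  (x : Qb), x ∈ IntermediateField.adjoin ℚ (Set.range c) → x ≠ 0 →
  ∃ z : ℤ, v p x ^ D = (p : ℝ) ^ z

/-- BET: characters at the point `1 + p π ^ (i + 1)` -/
def T_BET : Prop := ∀ (p : Nat.Primes) (N l : ℕ) (π : Qb), (p : ℕ) ≠ 2 → l.Prime → N < l →
  π ^ l = (p : ℕ) → ∀ a : Fin N → ℤ, ¬ Dv p a → ∃ i : Fin N,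
    v p (mon (fun i : Fin N => 1 + ((p : ℕ) : Qb) * π ^ ((i : ℕ) + 1)) a - 1) ^ l =
      ((p : ℝ)⁻¹) ^ (l + ((i : ℕ) + 1))

/-- LOW: the characters stay away from the group generated by `c` -/
def T_LOW : Prop := ∀ (p : Nat.Primes) (N l D : ℕ) (π : Qb) (w : Fin N → ℤ)
  (A : Matrix (Fin N) (Fin N) ℤ) (c : Fin N → Qb) (δ : ℕ) (y : ℕ → Fin N → Qb)
  (ξ : Fin N → Qb) (L r : ℕ), (p : ℕ) ≠ 2 → l.Prime → N < l → D < l → 1 ≤ D →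
  π ^ l = (p : ℕ) →
  (∀ x : Qb, x ∈ IntermediateField.adjoin ℚ (Set.range c) → x ≠ 0 →
    ∃ z : ℤ, v p x ^ D = (p : ℝ) ^ z) → CS p w A c δ y →
  Ini p w y ξ L r (fun i : Fin N => 1 + ((p : ℕ) : Qb) * π ^ ((i : ℕ) + 1)) →
  ∀ n : ℕ, DvM p (A ^ n - 1) → ∀ γ, Ort w γ → ¬ Dv p γ → ∀ (j : ℕ) (η : Fin N → ℤ),
    ((p : ℝ)⁻¹) ^ (j + 2) ≤ v p (mon (y n) ((p : ℕ) ^ j • γ) ^ L * mon c η - 1)

/-- LMA: after finitely many steps the characters move inside `1 + pO` -/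
def T_LMA : Prop := ∀ (p : Nat.Primes) (N : ℕ) (w : Fin N → ℤ)
  (A : Matrix (Fin N) (Fin N) ℤ) (c : Fin N → Qb) (δ : ℕ) (y : ℕ → Fin N → Qb)
  (ξ : Fin N → Qb) (L r : ℕ) (b : Fin N → Qb), (p : ℕ) ≠ 2 → ¬ ((p : ℕ) : ℤ) ∣ A.det →
  CS p w A c δ y → Ini p w y ξ L r b →
  ∃ k : ℕ, 1 ≤ k ∧ DvM p (A ^ k - 1) ∧ ∀ n γ, Ort w γ →
    v p (mon c (Matrix.vecMul γ (geo A k)) * mon (y n) (Matrix.vecMul γ (A ^ k - 1)) - 1) ≤
      (p : ℝ)⁻¹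

/-- LMB: limit characters -/
def T_LMB : Prop := ∀ (p : Nat.Primes) (N : ℕ) (w : Fin N → ℤ)
  (A : Matrix (Fin N) (Fin N) ℤ) (c : Fin N → Qb) (δ : ℕ) (y : ℕ → Fin N → Qb) (k : ℕ),
  (p : ℕ) ≠ 2 → CS p w A c δ y → 1 ≤ k → DvM p (A ^ k - 1) →
  (∀ n γ, Ort w γ →
    v p (mon c (Matrix.vecMul γ (geo A k)) * mon (y n) (Matrix.vecMul γ (A ^ k - 1)) - 1) ≤
      (p : ℝ)⁻¹) →
  ∃ χ : (Fin N → ℤ) → ℕ → ℂ_[(p : ℕ)],
    (∀ γ, Ort w γ → ∀ j, Tendsto (fun T : ℕ => em p (mon (y (k * ((p : ℕ) ^ T + j))) γ)) atTop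
      (𝓝 (χ γ j))) ∧
    (∀ γ, Ort w γ → ∀ j, ‖χ γ j‖ = 1) ∧
    (∀ γ γ', Ort w γ → Ort w γ' → ∀ j, χ (γ + γ') j = χ γ j * χ γ' j) ∧
    (∀ γ, Ort w γ → ∀ j, χ γ (j + 1) =
      em p (mon c (Matrix.vecMul γ (geo A k))) * χ (Matrix.vecMul γ (A ^ k)) j) ∧
    (∀ γ, Ort w γ → ‖χ γ 1 / χ γ 0 - 1‖ ≤ (p : ℝ)⁻¹)

/-- BAS: a basis of the lattice orthogonal to `w` -/
def T_BAS : Prop := ∀ (N : ℕ) (w : Fin N → ℤ) (C : Matrix (Fin N) (Fin N) ℤ) (p : ℕ),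
  p.Prime → (∀ γ, Ort w γ → Ort w (Matrix.vecMul γ C)) → DvM p (C - 1) →
  ∃ (m : ℕ) (Φ : Matrix (Fin m) (Fin N) ℤ) (C' : Matrix (Fin m) (Fin m) ℤ),
    (∀ a : Fin m → ℤ, Ort w (Matrix.vecMul a Φ)) ∧
    (∀ γ : Fin N → ℤ, Ort w γ → ∃ a : Fin m → ℤ, Matrix.vecMul a Φ = γ) ∧
    (∀ a : Fin m → ℤ, Matrix.vecMul a Φ = 0 → a = 0) ∧
    (∀ a : Fin m → ℤ, Matrix.vecMul (Matrix.vecMul a C') Φ =
      Matrix.vecMul (Matrix.vecMul a Φ) C) ∧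
    DvM p (C' - 1) ∧ (∀ a : Fin m → ℤ, Dv p (Matrix.vecMul a Φ) → Dv p a)

/-- IDN: evaluation of the identity between the leading forms -/
def T_IDN : Prop := ∀ (N : ℕ) (U V P Q : MvPolynomial (Fin N) Qb) (c : Qb)
  (A : Fin N → ℤ) (w : ℤ), U ≠ 0 → V ≠ 0 → Q ≠ 0 →
  algebraMap (MvPolynomial (Fin N) Qb) (FractionRing (MvPolynomial (Fin N) Qb)) P /
    algebraMap (MvPolynomial (Fin N) Qb) (FractionRing (MvPolynomial (Fin N) Qb)) Q =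
    algebraMap (MvPolynomial (Fin N) Qb) (FractionRing (MvPolynomial (Fin N) Qb)) (C c) *
      (∏ j, algebraMap (MvPolynomial (Fin N) Qb) (FractionRing (MvPolynomial (Fin N) Qb))
        (X j) ^ A j) *
      (algebraMap (MvPolynomial (Fin N) Qb) (FractionRing (MvPolynomial (Fin N) Qb)) U /
        algebraMap (MvPolynomial (Fin N) Qb) (FractionRing (MvPolynomial (Fin N) Qb)) V) ^ w →
  ∀ x : Fin N → Qb, (∀ j, x j ≠ 0) → eval x U ≠ 0 → eval x V ≠ 0 → eval x Q ≠ 0 →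
    eval x P = eval x Q * c * mon x A * (eval x U / eval x V) ^ w

end Pool.Agent.H16.ZW
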