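import Pool.Agent.H16.ZW.MainE
import Pool.Agent.H16.ZW.BET
import Pool.Agent.H12.ZW.BLM
import Pool.Agent.H12.ZW.TAY
import Pool.Agent.H17.ZW.BAS
import Pool.Agent.H17.ZW.FRB
import Pool.Agent.H17.ZW.REL
import Pool.Agent.H30.ZW.EXQ
import Pool.Agent.H30.ZW.MON
import Pool.Agent.H30.ZW.PSI
import Pool.Agent.H31.ZW.LG
import Pool.Agent.H31.ZW.PW
import Pool.Agent.H33.ZW.EE
import Pool.Agent.H33.ZW.EVL
import Pool.Agent.H39.ZW.LMA
import Pool.Agent.H42.ZW.KAP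
import Pool.Agent.H42.ZW.MV
import Pool.Agent.H48.ZW.CHD
import Pool.Agent.H48.ZW.UN
import Pool.Agent.H54.ZW.FTX
import Pool.Agent.H54.ZW.GRD
import Pool.Agent.H74.ZW.TIE
import Pool.Agent.H74.ZW.VG
import Pool.Agent.H77.ZW.LNF
import Pool.Agent.H87.ZW.ORB
import Pool.Agent.H87.ZW.ORD
import Pool.Agent.H95.ZW.ADJ
import Pool.Agent.H95.ZW.IDN
import Pool.Agent.H95.ZW.KO
import Pool.Agent.H95.ZW.LMB
import Pool.Agent.H95.ZW.LOW

/-!
# Zariski dense orbits of rational maps with a monomial leading part: all modules together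
-/

namespace Pool.Agent.H16.ZW

theorem pfMON : T_MON := Pool.Agent.H30.ZW.pf_mon
theorem pfPW : T_PW := Pool.Agent.H31.ZW.pw
theorem pfLG : T_LG := Pool.Agent.H31.ZW.lg pfPW
theorem pfMV : T_MV := Pool.Agent.H42.ZW.mv
theorem pfKAP : T_KAP := Pool.Agent.H42.ZW.kap pfLG
theorem pfBLM : T_BLM := Pool.Agent.H12.ZW.BLM.blm
theorem pfCHD : T_CHD := Pool.Agent.H48.ZW.chd
theorem pfTAY : T_TAY := Pool.Agent.H12.ZW.TAY.tay
theorem pfEE : T_EE := Pool.Agent.H33.ZW.pf_EE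
theorem pfORD : T_ORD := Pool.Agent.H87.ZW.ord
theorem pfKO : T_KO := Pool.Agent.H95.ZW.ko pfEE pfORD
theorem pfEXQ : T_EXQ := Pool.Agent.H30.ZW.exq
theorem pfTIE : T_TIE := Pool.Agent.H74.ZW.tie pfEE pfEXQ
theorem pfLNF : T_LNF := Pool.Agent.H77.ZW.lnf pfEE pfKO pfEXQ
theorem pfEVL : T_EVL := Pool.Agent.H33.ZW.evl
theorem pfORB : T_ORB := Pool.Agent.H87.ZW.orb pfMON pfEVL
theorem pfPSI : T_PSI := Pool.Agent.H30.ZW.psi
theorem pfREL : T_REL := Pool.Agent.H17.ZW.REL.rel pfMON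
theorem pfGRD : T_GRD := Pool.Agent.H54.ZW.grd
theorem pfADJ : T_ADJ := Pool.Agent.H95.ZW.adj
theorem pfFTX : T_FTX := Pool.Agent.H54.ZW.ftx pfGRD pfADJ pfMON
theorem pfFRB : T_FRB := Pool.Agent.H17.ZW.FRB.frb pfFTX pfMON
theorem pfUN : T_UN := Pool.Agent.H48.ZW.un pfMON
theorem pfVG : T_VG := Pool.Agent.H74.ZW.vg
theorem pfBET : T_BET := bet pfPW
theorem pfLOW : T_LOW := Pool.Agent.H95.ZW.low pfMON pfPW pfBET
theorem pfLMA : T_LMA := Pool.Agent.H39.ZW.lma pfMON pfMV pfUN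
theorem pfLMB : T_LMB := Pool.Agent.H95.ZW.lmb pfMON pfPW pfMV
theorem pfBAS : T_BAS := Pool.Agent.H17.ZW.BAS.bas
theorem pfIDN : T_IDN := Pool.Agent.H95.ZW.idn

/-- the main theorem -/
theorem main : T_MAIN := fun _ D hD hNF =>
  exists_dense pfPW pfMV pfKAP pfBLM pfCHD pfTAY pfEE pfTIE pfEXQ pfLNF pfEVL pfORB pfPSI pfREL
    pfFRB pfVG pfLOW pfLMA pfLMB pfBAS D hD hNF

end Pool.Agent.H16.ZW
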