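import Pool.Agent.H12.ZD.Residue

/-!
# Zariski dense orbits of rational maps with a monomial leading part: definitions

`K` is a complete algebraically closed ultrametric field of characteristic zero with
`|p| = 1 / p` (later `ℂ_[p]`), `Qb` the field of algebraic numbers, `v p` its `p`-adic absolute
value (`Pool/Agent/H12/ZD/Place.lean`).
-/

open Filter Topology MvPolynomial

namespace Pool.Agent.H16.ZW

open Pool.Agent.H12.ZD (v emb)

/-- the algebraic numbers -/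
abbrev Qb : Type := AlgebraicClosure ℚ

/-- the monomial with integer exponents `γ` at the point `x` -/
noncomputable def mon {F : Type} [Field F] {N : ℕ} (x : Fin N → F) (γ : Fin N → ℤ) : F :=
  ∏ i, x i ^ γ i

/-- `1 + A + ... + A ^ (n - 1)` -/
def geo {N : ℕ} (A : Matrix (Fin N) (Fin N) ℤ) (n : ℕ) : Matrix (Fin N) (Fin N) ℤ :=
  ∑ i ∈ Finset.range n, A ^ i

/-- all entries of the vector are divisible by `n` -/
def Dv {N : ℕ} (n : ℕ) (γ : Fin N → ℤ) : Prop := ∀ i, (n : ℤ) ∣ γ i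

/-- all entries of the matrix are divisible by `n` -/
def DvM {N : ℕ} (n : ℕ) (C : Matrix (Fin N) (Fin N) ℤ) : Prop := ∀ i j, (n : ℤ) ∣ C i j

/-! ## Part I: complete fields -/

/-- `p` is an odd prime and `|p| = 1 / p` in `K` -/
structure PK (p : ℕ) (K : Type) [NormedField K] : Prop where
  prime : p.Prime
  odd : p ≠ 2
  norm_p : ‖(p : K)‖ = (p : ℝ)⁻¹

/-- `V T = p ^ (-T) (1 + C + ... + C ^ (p ^ T - 1))` -/
structure VS {m : ℕ} (p : ℕ) (C : Matrix (Fin m) (Fin m) ℤ) (V : ℕ → Matrix (Fin m) (Fin m) ℤ) :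
    Prop where
  one : DvM p (C - 1)
  zero : V 0 = 1
  geo : ∀ T, geo C (p ^ T) = ((p : ℤ) ^ T) • V T
  cau : ∀ T, DvM (p ^ (T + 1)) (V (T + 1) - V T)

/-- `g` is the `p`-adic derivative of the function `f` on the natural numbers -/
def Der {K : Type} [NormedField K] (p : ℕ) (f g : ℕ → K) : Prop :=
  ∀ j, Tendsto (fun T : ℕ => (f (j + p ^ T) - f j) / (p : K) ^ T) atTop (𝓝 (g j))

/-- a character with values in `1 + pO` -/
structure Chr {m : ℕ} {K : Type} [NormedField K] (p : ℕ) (ρ : (Fin m → ℤ) → K) : Prop where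
  mul : ∀ a b, ρ (a + b) = ρ a * ρ b
  one : ∀ a, ‖ρ a - 1‖ ≤ (p : ℝ)⁻¹

/-- `κ` is the logarithmic derivative of `j ↦ ρ (a geo C j)` at `0` -/
def Kap {m : ℕ} {K : Type} [NormedField K] (p : ℕ) (C : Matrix (Fin m) (Fin m) ℤ)
    (ρ : (Fin m → ℤ) → K) (κ : Fin m → K) : Prop :=
  ∀ a : Fin m → ℤ, Tendsto
    (fun T : ℕ => (ρ (Matrix.vecMul a (geo C (p ^ T))) - 1) / (p : K) ^ T) atTop
    (𝓝 (∑ i, (a i : K) * κ i))

/-- `B` is the logarithm of `C` -/
def Blm {m : ℕ} {K : Type} [NormedField K] (p : ℕ) (C : Matrix (Fin m) (Fin m) ℤ)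
    (B : Matrix (Fin m) (Fin m) K) : Prop :=
  ∀ i j, Tendsto (fun T : ℕ => (((C ^ p ^ T - 1) i j : ℤ) : K) / (p : K) ^ T) atTop (𝓝 (B i j))

/-! ## Formal exponential polynomials -/

section formal

/-- formal sums `∑ q_b(s) exp(b s)`, `q_b ∈ K[s]` -/
abbrev EE (K : Type) [Field K] : Type := AddMonoidAlgebra (Polynomial K) K

variable {K : Type} [Field K]

/-- the derivation of the ring of formal exponential polynomials -/
noncomputable def DD (x : EE K) : EE K :=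
  .ofCoeff (Finsupp.onFinset x.coeff.support
    (fun b => Polynomial.derivative (x.coeff b) + Polynomial.C b * x.coeff b) (by
      intro b hb
      rw [Finsupp.mem_support_iff]
      intro h
      apply hb
      rw [h]
      simp))

variable [CharZero K]

/-- `exp(b s)` -/
noncomputable def ee (b : K) : PowerSeries K := PowerSeries.rescale b (PowerSeries.exp K)

/-- `b ↦ exp(b s)` as a homomorphism -/
noncomputable def eeHom (K : Type) [Field K] [CharZero K] :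
    Multiplicative K →* PowerSeries K where
  toFun b := ee b.toAdd
  map_one' := by
    rw [toAdd_one]
    simp [ee]
  map_mul' a b := by
    rw [toAdd_mul]
    exact (PowerSeries.exp_mul_exp_eq_exp_add a.toAdd b.toAdd).symm

/-- the power series of a formal exponential polynomial -/
noncomputable def ii (K : Type) [Field K] [CharZero K] : EE K →+* PowerSeries K :=
  AddMonoidAlgebra.liftNCRingHom (Polynomial.coeToPowerSeries.ringHom) (eeHom K)
    (fun _ _ => Commute.all _ _)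

end formal

/-! ## Part II: rational maps -/

/-- weighted homogeneous of weight `a` -/
def Hom {N : ℕ} (w : Fin N → ℤ) (G : MvPolynomial (Fin N) Qb) (a : ℤ) : Prop :=
  ∀ m ∈ G.support, ∑ j, (m j : ℤ) * w j = a

/-- all monomials have weight less than `a` -/
def Low {N : ℕ} (w : Fin N → ℤ) (G : MvPolynomial (Fin N) Qb) (a : ℤ) : Prop :=
  ∀ m ∈ G.support, ∑ j, (m j : ℤ) * w j < a

/-- the data: a rational map `P i / Q i` with leading forms `PL i`, `QL i` for the weights `w` -/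
structure Dat (N : ℕ) where
  w : Fin N → ℤ
  A : Matrix (Fin N) (Fin N) ℤ
  c : Fin N → Qb
  U : MvPolynomial (Fin N) Qb
  V : MvPolynomial (Fin N) Qb
  P : Fin N → MvPolynomial (Fin N) Qb
  Q : Fin N → MvPolynomial (Fin N) Qb
  PL : Fin N → MvPolynomial (Fin N) Qb
  QL : Fin N → MvPolynomial (Fin N) Qb
  d : ℤ
  μU : ℤ
  μV : ℤ
  δ : ℕ
  a : Fin N → ℤ
  b : Fin N → ℤ

/-- the standing hypotheses -/
structure Dat.Ok {N : ℕ} (D : Dat N) : Prop where
  det : D.A.det ≠ 0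
  eig : ∀ i, ∑ j, D.A i j * D.w j = D.d * D.w i
  c0 : ∀ i, D.c i ≠ 0
  U0 : D.U ≠ 0
  V0 : D.V ≠ 0
  QL0 : ∀ i, D.QL i ≠ 0
  hU : Hom D.w D.U D.μU
  hV : Hom D.w D.V D.μV
  hPL : ∀ i, Hom D.w (D.PL i) (D.a i)
  hQL : ∀ i, Hom D.w (D.QL i) (D.b i)
  hP : ∀ i, Low D.w (D.P i - D.PL i) (D.a i)
  hQ : ∀ i, Low D.w (D.Q i - D.QL i) (D.b i)
  idn : ∀ x : Fin N → Qb, (∀ j, x j ≠ 0) → eval x D.U ≠ 0 → eval x D.V ≠ 0 →
    (∀ i, eval x (D.QL i) ≠ 0) → ∀ i, eval x (D.PL i) =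
      eval x (D.QL i) * D.c i * mon x (D.A i) * (eval x D.U / eval x D.V) ^ D.w i
  del : (D.δ : ℤ) = D.d + D.μU - D.μV
  two : 2 ≤ D.δ

/-- the rational map -/
noncomputable def Dat.map {N : ℕ} (D : Dat N) (y : Fin N → Qb) : Fin N → Qb :=
  fun i => eval y (D.P i) / eval y (D.Q i)

/-- the scaling factor -/
noncomputable def t0 (p : Nat.Primes) : Qb := (((p : ℕ) : Qb) ^ 2)⁻¹

/-- `p` is a good prime for `D`, and `q` a residual orbit -/
structure GoodP {N : ℕ} (p : Nat.Primes) (D : Dat N) (q : ℕ → Fin N → Qb) : Prop where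
  cP : ∀ i m, v p (coeff m (D.P i)) ≤ 1
  cQ : ∀ i m, v p (coeff m (D.Q i)) ≤ 1
  cPL : ∀ i m, v p (coeff m (D.PL i)) ≤ 1
  cQL : ∀ i m, v p (coeff m (D.QL i)) ≤ 1
  cU : ∀ m, v p (coeff m D.U) ≤ 1
  cV : ∀ m, v p (coeff m D.V) ≤ 1
  c1 : ∀ i, v p (D.c i) = 1
  q1 : ∀ n i, v p (q n i) = 1
  qs : ∀ n i, v p (D.c i * mon (q n) (D.A i) - q (n + 1) i) < 1
  qU : ∀ n, v p (eval (q n) D.U) = 1
  qV : ∀ n, v p (eval (q n) D.V) = 1
  qQ : ∀ n i, v p (eval (q n) (D.QL i)) = 1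

/-- the orbit in normalised coordinates -/
structure Orb {N : ℕ} (p : Nat.Primes) (D : Dat N) (q : ℕ → Fin N → Qb) (x : Fin N → Qb)
    (y : ℕ → Fin N → Qb) : Prop where
  unit : ∀ n i, v p (y n i) = 1
  orb : ∀ n i, (D.map^[n] x) i = (t0 p ^ D.δ ^ n) ^ D.w i * y n i
  def_ : ∀ n i, eval (D.map^[n] x) (D.Q i) ≠ 0
  res : ∀ n, ∃ s : Qb, v p s = 1 ∧ ∀ i, v p (y n i - s ^ D.w i * q n i) < 1
  step : ∀ n, ∃ μ : Qb, v p μ = 1 ∧
    ∀ i, v p (y (n + 1) i - D.c i * mon (y n) (D.A i) * μ ^ D.w i) ≤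
      ((p : ℝ)⁻¹) ^ (2 * D.δ ^ n)

/-- `γ` is orthogonal to `w` -/
def Ort {N : ℕ} (w γ : Fin N → ℤ) : Prop := ∑ i, γ i * w i = 0

/-- approximate characters along the orbit -/
structure CS {N : ℕ} (p : Nat.Primes) (w : Fin N → ℤ) (A : Matrix (Fin N) (Fin N) ℤ)
    (c : Fin N → Qb) (δ : ℕ) (y : ℕ → Fin N → Qb) : Prop where
  c1 : ∀ i, v p (c i) = 1
  two : 2 ≤ δ
  ort : ∀ γ, Ort w γ → Ort w (Matrix.vecMul γ A)
  unit : ∀ n i, v p (y n i) = 1
  step : ∀ n k γ, Ort w γ → v p (mon (y (n + k)) γ -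
    mon c (Matrix.vecMul γ (geo A k)) * mon (y n) (Matrix.vecMul γ (A ^ k))) ≤
      ((p : ℝ)⁻¹) ^ (2 * δ ^ n)

/-- the initial point and the residues -/
structure Ini {N : ℕ} (p : Nat.Primes) (w : Fin N → ℤ) (y : ℕ → Fin N → Qb) (ξ : Fin N → Qb)
    (L r : ℕ) (b : Fin N → Qb) : Prop where
  r1 : 1 ≤ r
  L1 : 1 ≤ L
  pL : ¬ (p : ℕ) ∣ L
  root : ∀ i, ξ i ^ L = 1
  b1 : ∀ i, v p (b i - 1) ≤ (p : ℝ)⁻¹
  y0 : ∀ i, v p (y 0 i - ξ i * b i) ≤ ((p : ℝ)⁻¹) ^ 2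
  res : ∀ n γ, Ort w γ →
    v p (mon (y n) γ - mon (fun i => ξ i ^ (((p : ℕ) ^ r) ^ n)) γ) < 1

/-- the embedding of the algebraic numbers into `ℂ_[p]` -/
noncomputable def em (p : Nat.Primes) : Qb →+* ℂ_[(p : ℕ)] :=
  (algebraMap (PadicAlgCl p) ℂ_[(p : ℕ)]).comp (emb p)

end Pool.Agent.H16.ZW
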