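import Pool.Agent.H16.ZW.Defs

/-!
# Evaluation of the identity between the leading forms over a general field

The proof is the one of module IDN (helper95), over an arbitrary field.
-/

open Filter Topology MvPolynomial

universe u

namespace Pool.Agent.H16.ZW.Spec

section

variable {k : Type u} [Field k] {N : ℕ} (x : Fin N → k)

/-- the rational function `f` has the value `y` at the point `x` -/
def HV (f : FractionRing (MvPolynomial (Fin N) k)) (y : k) : Prop :=
  ∃ a b : MvPolynomial (Fin N) k, eval x b ≠ 0 ∧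
    f = algebraMap (MvPolynomial (Fin N) k) (FractionRing (MvPolynomial (Fin N) k)) a /
      algebraMap (MvPolynomial (Fin N) k) (FractionRing (MvPolynomial (Fin N) k)) b ∧
    y = eval x a / eval x b

variable {x}

theorem HV.am_ne {b : MvPolynomial (Fin N) k} (hb : eval x b ≠ 0) :
    algebraMap (MvPolynomial (Fin N) k) (FractionRing (MvPolynomial (Fin N) k)) b ≠ 0 := by
  intro h
  apply hb
  have h1 : b = 0 := by
    apply IsFractionRing.injective (MvPolynomial (Fin N) k)
      (FractionRing (MvPolynomial (Fin N) k))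
    rw [h, map_zero]
  rw [h1, map_zero]

theorem HV.unique {f : FractionRing (MvPolynomial (Fin N) k)} {y z : k} (h : HV x f y)
    (h' : HV x f z) : y = z := by
  obtain ⟨a, b, hb, hf, hy⟩ := h
  obtain ⟨a', b', hb', hf', hy'⟩ := h'
  rw [hf] at hf'
  rw [div_eq_div_iff (HV.am_ne hb) (HV.am_ne hb'), ← map_mul, ← map_mul] at hf'
  have h1 := IsFractionRing.injective (MvPolynomial (Fin N) k)
      (FractionRing (MvPolynomial (Fin N) k)) hf'
  have h2 := congrArg (eval x) h1
  rw [map_mul, map_mul] at h2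
  rw [hy, hy', div_eq_div_iff hb hb', h2]

theorem HV.of (a : MvPolynomial (Fin N) k) :
    HV x (algebraMap (MvPolynomial (Fin N) k) (FractionRing (MvPolynomial (Fin N) k)) a)
      (eval x a) :=
  ⟨a, 1, by simp, by simp, by simp⟩

theorem HV.one : HV x (1 : FractionRing (MvPolynomial (Fin N) k)) 1 :=
  ⟨1, 1, by simp, by simp, by simp⟩

theorem HV.mul {f g : FractionRing (MvPolynomial (Fin N) k)} {y z : k} (h : HV x f y)
    (h' : HV x g z) : HV x (f * g) (y * z) := by
  obtain ⟨a, b, hb, hf, hy⟩ := h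
  obtain ⟨a', b', hb', hf', hy'⟩ := h'
  refine ⟨a * a', b * b', ?_, ?_, ?_⟩
  · rw [map_mul]
    exact mul_ne_zero hb hb'
  · rw [hf, hf', map_mul, map_mul, div_mul_div_comm]
  · rw [hy, hy', map_mul, map_mul, div_mul_div_comm]

theorem HV.inv {f : FractionRing (MvPolynomial (Fin N) k)} {y : k} (h : HV x f y)
    (hy0 : y ≠ 0) : HV x f⁻¹ y⁻¹ := by
  obtain ⟨a, b, hb, hf, hy⟩ := h
  refine ⟨b, a, ?_, ?_, ?_⟩
  · intro h0
    apply hy0
    rw [hy, h0, zero_div]
  · rw [hf, inv_div]
  · rw [hy, inv_div]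

theorem HV.div {f g : FractionRing (MvPolynomial (Fin N) k)} {y z : k} (h : HV x f y)
    (h' : HV x g z) (hz : z ≠ 0) : HV x (f / g) (y / z) := by
  rw [div_eq_mul_inv, div_eq_mul_inv]
  exact h.mul (h'.inv hz)

theorem HV.pow {f : FractionRing (MvPolynomial (Fin N) k)} {y : k} (h : HV x f y) (n : ℕ) :
    HV x (f ^ n) (y ^ n) := by
  induction n with
  | zero =>
    rw [pow_zero, pow_zero]
    exact HV.one
  | succ n ih =>
    rw [pow_succ, pow_succ]
    exact ih.mul h

theorem HV.zpow {f : FractionRing (MvPolynomial (Fin N) k)} {y : k} (h : HV x f y)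
    (hy : y ≠ 0) (n : ℤ) : HV x (f ^ n) (y ^ n) := by
  cases n with
  | ofNat n =>
    rw [Int.ofNat_eq_natCast, zpow_natCast, zpow_natCast]
    exact h.pow n
  | negSucc n =>
    rw [zpow_negSucc, zpow_negSucc]
    exact (h.pow (n + 1)).inv (pow_ne_zero _ hy)

theorem HV.prod {ι : Type} (s : Finset ι) (f : ι → FractionRing (MvPolynomial (Fin N) k))
    (y : ι → k) (h : ∀ i, HV x (f i) (y i)) : HV x (∏ i ∈ s, f i) (∏ i ∈ s, y i) := by
  classical
  induction s using Finset.induction_on with
  | empty =>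
    rw [Finset.prod_empty, Finset.prod_empty]
    exact HV.one
  | insert i s hi ih =>
    rw [Finset.prod_insert hi, Finset.prod_insert hi]
    exact (h i).mul ih

end

theorem idn_gen {k : Type u} [Field k] {N : ℕ} (U V P Q : MvPolynomial (Fin N) k) (c : k)
    (A : Fin N → ℤ) (w : ℤ)
    (h : algebraMap (MvPolynomial (Fin N) k) (FractionRing (MvPolynomial (Fin N) k)) P /
      algebraMap (MvPolynomial (Fin N) k) (FractionRing (MvPolynomial (Fin N) k)) Q =
      algebraMap (MvPolynomial (Fin N) k) (FractionRing (MvPolynomial (Fin N) k)) (C c) *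
        (∏ j, algebraMap (MvPolynomial (Fin N) k) (FractionRing (MvPolynomial (Fin N) k))
          (X j) ^ A j) *
        (algebraMap (MvPolynomial (Fin N) k) (FractionRing (MvPolynomial (Fin N) k)) U /
          algebraMap (MvPolynomial (Fin N) k) (FractionRing (MvPolynomial (Fin N) k)) V) ^ w)
    (x : Fin N → k) (hx : ∀ j, x j ≠ 0) (hU : eval x U ≠ 0) (hV : eval x V ≠ 0)
    (hQ : eval x Q ≠ 0) :
    eval x P = eval x Q * c * (∏ j, x j ^ A j) * (eval x U / eval x V) ^ w := by
  have h1 : HV x (algebraMap (MvPolynomial (Fin N) k)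
      (FractionRing (MvPolynomial (Fin N) k)) P /
      algebraMap (MvPolynomial (Fin N) k) (FractionRing (MvPolynomial (Fin N) k)) Q)
      (eval x P / eval x Q) := (HV.of P).div (HV.of Q) hQ
  have h2 : HV x (algebraMap (MvPolynomial (Fin N) k)
      (FractionRing (MvPolynomial (Fin N) k)) P /
      algebraMap (MvPolynomial (Fin N) k) (FractionRing (MvPolynomial (Fin N) k)) Q)
      (eval x (C c) * (∏ j, eval x (X j) ^ A j) * (eval x U / eval x V) ^ w) := by
    rw [h]
    refine ((HV.of (C c)).mul (HV.prod _ _ _ fun j => ?_)).mul ?_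
    · refine (HV.of (X j)).zpow ?_ _
      rw [eval_X]
      exact hx j
    · exact ((HV.of U).div (HV.of V) hV).zpow (div_ne_zero hU hV) w
  have h3 := h1.unique h2
  rw [div_eq_iff hQ] at h3
  rw [h3]
  simp only [eval_C, eval_X]
  ring

end Pool.Agent.H16.ZW.Spec
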