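import Pool.Agent.H16.ZW.Targets

/-!
# Linear independence of the limit characters
-/

open Filter Topology

namespace Pool.Agent.H16.ZW

theorem geo_succ {N : ℕ} (A : Matrix (Fin N) (Fin N) ℤ) (n : ℕ) :
    geo A (n + 1) = geo A n + A ^ n := by
  rw [geo, geo, Finset.sum_range_succ]

theorem geo_succ' {N : ℕ} (A : Matrix (Fin N) (Fin N) ℤ) (n : ℕ) :
    geo A (n + 1) = 1 + A * geo A n := by
  rw [geo, geo, Finset.sum_range_succ', Finset.mul_sum, add_comm, pow_zero]
  congr 1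
  exact Finset.sum_congr rfl fun i _ => pow_succ' A i

theorem geo_zero {N : ℕ} (A : Matrix (Fin N) (Fin N) ℤ) : geo A 0 = 0 := by
  rw [geo, Finset.sum_range_zero]

/-- linear independence of the characters -/
theorem at_main (hKAP : T_KAP) (hBLM : T_BLM) (hCHD : T_CHD) (hTAY : T_TAY)
    (hEE : T_EE) (hTIE : T_TIE) (hEXQ : T_EXQ) (hLNF : T_LNF)
    (p m : ℕ) (K : Type) [NormedField K] [CompleteSpace K] [IsUltrametricDist K]
    [IsAlgClosed K] [CharZero K] (hp : PK p K) (C : Matrix (Fin m) (Fin m) ℤ)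
    (V : ℕ → Matrix (Fin m) (Fin m) ℤ) (hV : VS p C V)
    (χ : (Fin m → ℤ) → ℕ → K) (e : (Fin m → ℤ) → K) (h0 : ∀ a j, χ a j ≠ 0)
    (hmul : ∀ a b j, χ (a + b) j = χ a j * χ b j)
    (hrec : ∀ a j, χ a (j + 1) = e a * χ (Matrix.vecMul a C) j)
    (hone : ∀ a, ‖χ a 1 / χ a 0 - 1‖ ≤ (p : ℝ)⁻¹)
    (hnd : ∀ a, a ≠ 0 → ∃ ε > 0, ∀ T : ℕ,
      ε ≤ ‖χ (Matrix.vecMul a (V T)) 1 / χ (Matrix.vecMul a (V T)) 0 - 1‖)
    (S : Finset (Fin m → ℤ)) (r : (Fin m → ℤ) → K)
    (hrel : ∀ j, ∑ a ∈ S, r a * χ a j = 0) : ∀ a ∈ S, r a = 0 := by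
  obtain ⟨e1, -, e3, e4, -, -, -, -⟩ := hEE K
  set ρ : (Fin m → ℤ) → K := fun a => χ a 1 / χ a 0 with hρ
  have hρc : Chr p ρ := by
    refine ⟨fun a b => ?_, hone⟩
    simp only [hρ, hmul]
    rw [mul_div_mul_comm]
  obtain ⟨κ, hκ, hκ2⟩ := hKAP p m K hp C V hV ρ hρc
  have hκ0 : ∀ a : Fin m → ℤ, a ≠ 0 → ∑ i, (a i : K) * κ i ≠ 0 := by
    intro a ha h
    obtain ⟨ε, hε, h1⟩ := hnd a ha
    have h2 := ge_of_tendsto' (hκ2 a) h1
    rw [h, norm_zero] at h2
    exact absurd h2 (not_le.2 hε)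
  obtain ⟨B, hB⟩ := hBLM p m K hp C V hV
  -- the functions in terms of `ρ`
  have hstep : ∀ j a, χ a (j + 1) = χ a j * ρ (Matrix.vecMul a (C ^ j)) := by
    intro j
    induction j with
    | zero =>
      intro a
      rw [pow_zero, Matrix.vecMul_one]
      simp only [hρ]
      rw [mul_div_cancel₀ _ (h0 a 0)]
    | succ j ih =>
      intro a
      rw [hrec a (j + 1), ih (Matrix.vecMul a C), hrec a j, Matrix.vecMul_vecMul, ← pow_succ']
      ring
  have hform : ∀ j a, χ a j = χ a 0 * ρ (Matrix.vecMul a (geo C j)) := by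
    intro j
    induction j with
    | zero =>
      intro a
      have h1 : ρ 0 = 1 := by
        have h2 := hρc.mul 0 0
        rw [add_zero] at h2
        have h3 : ρ 0 ≠ 0 := by
          simp only [hρ]
          exact div_ne_zero (h0 _ _) (h0 _ _)
        exact (mul_right_cancel₀ h3 (by rw [one_mul]; exact h2)).symm
      rw [geo_zero, Matrix.vecMul_zero, h1, mul_one]
    | succ j ih =>
      intro a
      rw [hstep, ih a, geo_succ, Matrix.vecMul_add, hρc.mul, mul_assoc]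
  obtain ⟨hD1, hD2⟩ := hCHD p m K hp C ρ κ B hρc hκ hB
  -- the coefficients
  choose T hT using fun a : Fin m → ℤ => hTIE K m B (fun i => (a i : K)) κ
  choose Y hY hYu using fun a : Fin m → ℤ => hEXQ K (ii K (T a)) (χ a 0)
  have hrelY : ∑ a ∈ S, PowerSeries.C (r a) * Y a = 0 := by
    refine hTAY p K hp (Fin m → ℤ) S χ
      (fun a n j => ∑ i, ((Matrix.vecMul a (C ^ j) i : ℤ) : K) * ((B ^ n).mulVec κ) i) r Y
      ?_ ?_ ?_ ?_ hrel
    · intro a _
      have h1 := hD1 (χ a 0) a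
      have h2 : (fun j => χ a 0 * ρ (Matrix.vecMul a (geo C j))) = χ a := by
        funext j
        exact (hform j a).symm
      rw [h2] at h1
      have h3 : (fun j => (∑ i, ((Matrix.vecMul a (C ^ j) i : ℤ) : K) * κ i) *
          (χ a 0 * ρ (Matrix.vecMul a (geo C j)))) =
          fun j => (∑ i, ((Matrix.vecMul a (C ^ j) i : ℤ) : K) * ((B ^ 0).mulVec κ) i) * χ a j := by
        funext j
        rw [pow_zero, Matrix.one_mulVec, ← hform j a]
      rw [h3] at h1
      exact h1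
    · intro a _ n
      have h1 := hD2 a ((B ^ n).mulVec κ)
      rw [Matrix.mulVec_mulVec, ← pow_succ'] at h1
      exact h1
    · intro a _
      rw [(hY a).1, hT a]
      congr 2
      funext n
      congr 1
      refine Finset.sum_congr rfl fun i _ => ?_
      rw [pow_zero, Matrix.vecMul_one]
    · intro a _
      exact (hY a).2
  have hTadd : ∀ a b, T (a + b) = T a + T b := by
    intro a b
    apply e4
    rw [map_add, hT, hT, hT]
    ext n
    rw [map_add, PowerSeries.coeff_mk, PowerSeries.coeff_mk, PowerSeries.coeff_mk, ← add_div,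
      ← Finset.sum_add_distrib]
    congr 1
    refine Finset.sum_congr rfl fun i _ => ?_
    rw [Pi.add_apply, Int.cast_add, add_mul]
  refine hLNF K m Y T ?_ hTadd (fun a => (hY a).1) (fun a => ?_) (fun a ha => ?_) S r hrelY
  · intro a b
    refine (hYu (a + b) _ ⟨?_, ?_⟩).symm
    · rw [Derivation.leibniz, (hY a).1, (hY b).1, hTadd, map_add, smul_eq_mul, smul_eq_mul]
      ring
    · rw [map_mul, (hY a).2, (hY b).2, hmul]
  · rw [(hY a).2]
    exact h0 a 0
  · rw [hT, ← PowerSeries.coeff_zero_eq_constantCoeff_apply, PowerSeries.coeff_mk]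
    simp only [pow_zero, Matrix.one_mulVec, Nat.factorial_zero, Nat.cast_one, div_one]
    exact hκ0 a ha

end Pool.Agent.H16.ZW
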