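import Pool.Agent.H16.ZW.MainA

/-!
# Non-degeneracy of the limit characters
-/

open Filter Topology

namespace Pool.Agent.H16.ZW

open Pool.Agent.H12.ZD (v emb)

theorem norm_em (p : Nat.Primes) (x : Qb) : ‖em p x‖ = v p x := by
  have h : em p x = ((emb p x : PadicAlgCl p) : ℂ_[(p : ℕ)]) := rfl
  rw [h, PadicComplex.norm_extends]
  rfl

theorem pk (p : Nat.Primes) (hp : (p : ℕ) ≠ 2) : PK p ℂ_[(p : ℕ)] := by
  refine ⟨p.2, hp, ?_⟩
  rw [← map_natCast (em p), norm_em]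
  exact Pool.Agent.H12.ZD.v_self p

section matrices

variable {N : ℕ}

theorem pow_mul_sub_one (A : Matrix (Fin N) (Fin N) ℤ) (k t : ℕ) :
    A ^ (k * t) - 1 = (A ^ k - 1) * geo (A ^ k) t := by
  rw [pow_mul, geo, mul_geom_sum]

theorem DvM.mul_right {n : ℕ} {X : Matrix (Fin N) (Fin N) ℤ} (h : DvM n X)
    (Y : Matrix (Fin N) (Fin N) ℤ) : DvM n (X * Y) := by
  intro i j
  rw [Matrix.mul_apply]
  exact Finset.dvd_sum fun l _ => Dvd.dvd.mul_right (h i l) _

theorem DvM.vecMul {n : ℕ} {X : Matrix (Fin N) (Fin N) ℤ} (h : DvM n X) (a : Fin N → ℤ) :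
    Dv n (Matrix.vecMul a X) := by
  intro j
  rw [Matrix.vecMul, dotProduct]
  exact Finset.dvd_sum fun l _ => Dvd.dvd.mul_left (h l j) _

theorem exists_primitive {p : ℕ} (hp : p.Prime) (g : Fin N → ℤ) (hg : g ≠ 0) :
    ∃ (s : ℕ) (g' : Fin N → ℤ), g = p ^ s • g' ∧ ¬ Dv p g' := by
  obtain ⟨i, hi⟩ : ∃ i, g i ≠ 0 := by
    by_contra h
    push Not at h
    exact hg (funext h)
  -- a bound for the exponent
  have hbd : ∀ s : ℕ, (∀ j, ((p : ℤ) ^ s) ∣ g j) → s ≤ (g i).natAbs := by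
    intro s hs
    have h1 := hs i
    have h2 : p ^ s ∣ (g i).natAbs := by
      have := Int.natAbs_dvd_natAbs.2 h1
      rwa [Int.natAbs_pow, Int.natAbs_natCast] at this
    have h3 := Nat.le_of_dvd (Int.natAbs_pos.2 hi) h2
    exact (Nat.lt_pow_self hp.one_lt).le.trans h3
  have hex : ∃ s : ℕ, (∀ j, ((p : ℤ) ^ s) ∣ g j) ∧ ¬ ∀ j, ((p : ℤ) ^ (s + 1)) ∣ g j := by
    by_contra hcon
    push Not at hcon
    have hall : ∀ s : ℕ, ∀ j, ((p : ℤ) ^ s) ∣ g j := by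
      intro s
      induction s with
      | zero => intro j; rw [pow_zero]; exact one_dvd _
      | succ s ih => exact hcon s ih
    have := hbd ((g i).natAbs + 1) (hall _)
    omega
  obtain ⟨s, hs, hns⟩ := hex
  choose g' hg' using hs
  refine ⟨s, g', ?_, ?_⟩
  · funext j
    rw [Pi.smul_apply, hg' j, nsmul_eq_mul]
    push_cast
    rfl
  · intro hdv
    apply hns
    intro j
    obtain ⟨q, hq⟩ := hdv j
    refine ⟨q, ?_⟩
    rw [hg' j, hq, pow_succ]
    ring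

theorem smul_inj' {n : ℕ} (hn : n ≠ 0) {a b : Fin N → ℤ} (h : n • a = n • b) : a = b := by
  funext i
  have h1 := congrFun h i
  rw [Pi.smul_apply, Pi.smul_apply, nsmul_eq_mul, nsmul_eq_mul] at h1
  exact mul_left_cancel₀ (by exact_mod_cast hn) h1

theorem vecMul_geo_of_fixed {C : Matrix (Fin N) (Fin N) ℤ} {a : Fin N → ℤ}
    (h : Matrix.vecMul a C = a) (n : ℕ) : Matrix.vecMul a (geo C n) = n • a := by
  have hpow : ∀ i : ℕ, Matrix.vecMul a (C ^ i) = a := by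
    intro i
    induction i with
    | zero => rw [pow_zero, Matrix.vecMul_one]
    | succ i ih => rw [pow_succ, ← Matrix.vecMul_vecMul, ih, h]
  induction n with
  | zero => rw [geo_zero, Matrix.vecMul_zero, zero_smul]
  | succ n ih => rw [geo_succ, Matrix.vecMul_add, ih, hpow, succ_nsmul]

/-- the standing facts on `V` -/
theorem vs_facts {p : ℕ} {C : Matrix (Fin N) (Fin N) ℤ} {V : ℕ → Matrix (Fin N) (Fin N) ℤ}
    (hp : p.Prime) (h : VS p C V) (T : ℕ) : DvM p (V T - 1) ∧ V T * C = C * V T ∧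
    (∀ a : Fin N → ℤ, p ^ T • Matrix.vecMul a (V T) = Matrix.vecMul a (geo C (p ^ T))) := by
  have h3 : ∀ a : Fin N → ℤ,
      p ^ T • Matrix.vecMul a (V T) = Matrix.vecMul a (geo C (p ^ T)) := by
    intro a
    rw [h.geo T, Matrix.vecMul_smul]
    funext i
    rw [Pi.smul_apply, Pi.smul_apply, nsmul_eq_mul, smul_eq_mul]
    push_cast
    rfl
  refine ⟨?_, ?_, h3⟩
  · induction T with
    | zero =>
      rw [h.zero, sub_self]
      intro i j
      exact dvd_zero _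
    | succ T ih =>
      intro i j
      have h1 : (V (T + 1) - 1) i j = (V (T + 1) - V T) i j + (V T - 1) i j := by
        simp only [Matrix.sub_apply]
        ring
      rw [h1]
      refine dvd_add ?_ (ih (by
        intro a
        rw [h.geo T, Matrix.vecMul_smul]
        funext i
        rw [Pi.smul_apply, Pi.smul_apply, nsmul_eq_mul, smul_eq_mul]
        push_cast
        rfl) i j)
      have h2 := h.cau T i j
      refine dvd_trans ?_ h2
      push_cast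
      exact dvd_pow_self _ (Nat.succ_ne_zero T)
  · have h4 : ((p : ℤ) ^ T) • (V T * C) = ((p : ℤ) ^ T) • (C * V T) := by
      rw [← Matrix.smul_mul, ← Matrix.mul_smul, ← h.geo T, geo, Finset.sum_mul, Finset.mul_sum]
      exact Finset.sum_congr rfl fun i _ => (pow_succ C i).symm.trans (pow_succ' C i)
    have h5 : ((p : ℤ) ^ T) ≠ 0 := pow_ne_zero _ (by exact_mod_cast hp.ne_zero)
    exact smul_right_injective _ h5 h4

end matrices

/-- non-degeneracy -/
theorem nd_main (hPW : T_PW) (p : Nat.Primes) (hp2 : (p : ℕ) ≠ 2) {N : ℕ} (w : Fin N → ℤ)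
    (A : Matrix (Fin N) (Fin N) ℤ) (c : Fin N → Qb) (hc : ∀ i, c i ≠ 0) (k : ℕ)
    (hnf : ∀ γ, γ ≠ 0 → Ort w γ → Matrix.vecMul γ (A ^ k) = γ →
      mon c (Matrix.vecMul γ (geo A k)) ≠ 1)
    (χ₀ : (Fin N → ℤ) → ℕ → ℂ_[(p : ℕ)]) (L : ℕ)
    (hlow : ∀ γ, Ort w γ → ¬ Dv p γ → ∀ (j : ℕ) (η : Fin N → ℤ),
      ((p : ℝ)⁻¹) ^ (j + 2) ≤ ‖χ₀ ((p : ℕ) ^ j • γ) 0 ^ L * em p (mon c η) - 1‖)
    (h1n : ∀ γ, Ort w γ → ∀ j, ‖χ₀ γ j‖ = 1)
    (hmul : ∀ γ γ', Ort w γ → Ort w γ' → ∀ j, χ₀ (γ + γ') j = χ₀ γ j * χ₀ γ' j)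
    (hrec : ∀ γ, Ort w γ → ∀ j, χ₀ γ (j + 1) =
      em p (mon c (Matrix.vecMul γ (geo A k))) * χ₀ (Matrix.vecMul γ (A ^ k)) j)
    (hone : ∀ γ, Ort w γ → ‖χ₀ γ 1 / χ₀ γ 0 - 1‖ ≤ (p : ℝ)⁻¹)
    {m : ℕ} (Φ : Matrix (Fin m) (Fin N) ℤ) (C' : Matrix (Fin m) (Fin m) ℤ)
    (hΦ : ∀ a : Fin m → ℤ, Ort w (Matrix.vecMul a Φ))
    (hinj : ∀ a : Fin m → ℤ, Matrix.vecMul a Φ = 0 → a = 0)
    (hcomp : ∀ a : Fin m → ℤ, Matrix.vecMul (Matrix.vecMul a C') Φ =
      Matrix.vecMul (Matrix.vecMul a Φ) (A ^ k))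
    (hdv : ∀ a : Fin m → ℤ, Dv p (Matrix.vecMul a Φ) → Dv p a)
    (V : ℕ → Matrix (Fin m) (Fin m) ℤ) (hV : VS p C' V) :
    ∀ a : Fin m → ℤ, a ≠ 0 → ∃ ε > 0, ∀ T : ℕ, ε ≤
      ‖χ₀ (Matrix.vecMul (Matrix.vecMul a (V T)) Φ) 1 /
        χ₀ (Matrix.vecMul (Matrix.vecMul a (V T)) Φ) 0 - 1‖ := by
  have hp := p.2
  have hPK := pk p hp2
  obtain ⟨hn1, -, hpw⟩ := hPW p ℂ_[(p : ℕ)] hPK
  have hχ0 : ∀ γ, Ort w γ → ∀ j, χ₀ γ j ≠ 0 := by
    intro γ hγ j h
    have := h1n γ hγ j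
    rw [h, norm_zero] at this
    exact zero_ne_one this
  -- the ratio
  have hratio : ∀ b : Fin m → ℤ, χ₀ (Matrix.vecMul b Φ) 1 / χ₀ (Matrix.vecMul b Φ) 0 =
      em p (mon c (Matrix.vecMul (Matrix.vecMul b Φ) (geo A k))) *
        χ₀ (Matrix.vecMul (Matrix.vecMul b (C' - 1)) Φ) 0 := by
    intro b
    have h1 := hrec _ (hΦ b) 0
    rw [zero_add] at h1
    have h2 : Matrix.vecMul (Matrix.vecMul b Φ) (A ^ k) =
        Matrix.vecMul b Φ + Matrix.vecMul (Matrix.vecMul b (C' - 1)) Φ := by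
      rw [← hcomp, Matrix.vecMul_sub, Matrix.vecMul_one, Matrix.sub_vecMul]
      abel
    rw [h1, h2, hmul _ _ (hΦ _) (hΦ _)]
    field_simp [hχ0 _ (hΦ b) 0]
  intro a ha
  by_cases hg : Matrix.vecMul a (C' - 1) = 0
  · -- the fixed case
    have hfix : Matrix.vecMul a C' = a := by
      rw [Matrix.vecMul_sub, Matrix.vecMul_one, sub_eq_zero] at hg
      exact hg
    have haV : ∀ T, Matrix.vecMul a (V T) = a := by
      intro T
      refine smul_inj' (n := (p : ℕ) ^ T) (pow_ne_zero _ hp.ne_zero) ?_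
      rw [(vs_facts hp hV T).2.2, vecMul_geo_of_fixed hfix]
    have hγ : Matrix.vecMul a Φ ≠ 0 := fun h => ha (hinj a h)
    have hne := hnf _ hγ (hΦ a) (by rw [← hcomp, hfix])
    refine ⟨‖em p (mon c (Matrix.vecMul (Matrix.vecMul a Φ) (geo A k))) - 1‖, ?_, fun T => ?_⟩
    · rw [gt_iff_lt, norm_pos_iff, sub_ne_zero]
      intro h
      apply hne
      apply (em p).injective
      rw [h, map_one]
    · rw [haV, hratio, hg, Matrix.zero_vecMul]
      have h0 : χ₀ 0 0 = 1 := by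
        have hO : Ort w (0 : Fin N → ℤ) := by simp [Ort]
        have h2 := hmul 0 0 hO hO 0
        rw [add_zero] at h2
        exact (mul_right_cancel₀ (hχ0 0 hO 0) (by rw [one_mul]; exact h2)).symm
      rw [h0, mul_one]
  · obtain ⟨s, g', hg', hprim⟩ := exists_primitive hp _ hg
    refine ⟨((p : ℝ)⁻¹) ^ (s + 2), ?_, fun T => ?_⟩
    · have : 0 < (p : ℝ) := by exact_mod_cast hp.pos
      positivity
    · obtain ⟨hV1, hV2, -⟩ := vs_facts hp hV T
      have hprim' : ¬ Dv p (Matrix.vecMul g' (V T)) := by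
        intro h
        apply hprim
        intro i
        have h1 : g' i = Matrix.vecMul g' (V T) i - Matrix.vecMul g' (V T - 1) i := by
          rw [Matrix.vecMul_sub, Matrix.vecMul_one, Pi.sub_apply]
          ring
        rw [h1]
        exact dvd_sub (h i) (hV1.vecMul g' i)
      have e1 : Matrix.vecMul (Matrix.vecMul a (V T)) (C' - 1) =
          (p : ℕ) ^ s • Matrix.vecMul g' (V T) := by
        have h4 : V T * (C' - 1) = (C' - 1) * V T := by
          rw [mul_sub, mul_one, hV2, sub_mul, one_mul]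
        rw [Matrix.vecMul_vecMul, h4, ← Matrix.vecMul_vecMul, hg', Matrix.smul_vecMul]
      have e2 : Matrix.vecMul (Matrix.vecMul (Matrix.vecMul a (V T)) (C' - 1)) Φ =
          (p : ℕ) ^ s • Matrix.vecMul (Matrix.vecMul g' (V T)) Φ := by
        rw [e1, Matrix.smul_vecMul]
      have hlow' := hlow _ (hΦ (Matrix.vecMul g' (V T))) (fun h => hprim' (hdv _ h)) s
        (L • Matrix.vecMul (Matrix.vecMul (Matrix.vecMul a (V T)) Φ) (geo A k))
      have hr := hratio (Matrix.vecMul a (V T))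
      rw [e2] at hr
      have h3 : mon c (L • Matrix.vecMul (Matrix.vecMul (Matrix.vecMul a (V T)) Φ) (geo A k)) =
          mon c (Matrix.vecMul (Matrix.vecMul (Matrix.vecMul a (V T)) Φ) (geo A k)) ^ L := by
        unfold mon
        rw [← Finset.prod_pow]
        refine Finset.prod_congr rfl fun i _ => ?_
        rw [Pi.smul_apply, nsmul_eq_mul, mul_comm, zpow_mul, zpow_natCast]
      rw [h3, map_pow, mul_comm, ← mul_pow, ← hr] at hlow'
      refine hlow'.trans ?_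
      rw [hpw _ (hone _ (hΦ _))]
      exact mul_le_of_le_one_left (norm_nonneg _) (hn1 L)

end Pool.Agent.H16.ZW
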