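import Pool.Agent.H16.ZW.MainB

/-!
# The main theorem: points with a dense orbit form an open set at almost all primes
-/

open Filter Topology MvPolynomial

namespace Pool.Agent.H16.ZW

open Pool.Agent.H12.ZD (v emb)

theorem exists_bound_coeff {N : ℕ} (F : MvPolynomial (Fin N) Qb) :
    ∃ M : ℕ, ∀ p : Nat.Primes, M < (p : ℕ) → ∀ m, v p (coeff m F) ≤ 1 := by
  classical
  obtain ⟨M, hM⟩ := Pool.Agent.H12.ZD.exists_bound_finset (F.support.image fun m => coeff m F)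
  refine ⟨M, fun p hp m => ?_⟩
  by_cases hm : m ∈ F.support
  · exact hM p hp _ (Finset.mem_image_of_mem _ hm)
  · rw [notMem_support_iff.1 hm, Pool.Agent.H12.ZD.v_zero]
    exact zero_le_one

theorem exists_bound_fam {N : ℕ} {P : Fin N → Nat.Primes → Prop}
    (h : ∀ i, ∃ M : ℕ, ∀ p : Nat.Primes, M < (p : ℕ) → P i p) :
    ∃ M : ℕ, ∀ p : Nat.Primes, M < (p : ℕ) → ∀ i, P i p := by
  choose M hM using h
  refine ⟨Finset.univ.sup M, fun p hp i => hM i p ?_⟩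
  exact lt_of_le_of_lt (Finset.le_sup (Finset.mem_univ i)) hp

theorem exists_pos_le {N : ℕ} (a : Fin N → ℝ) (ha : ∀ i, 0 < a i) :
    ∃ ε : ℝ, 0 < ε ∧ ∀ i, ε ≤ a i := by
  rcases isEmpty_or_nonempty (Fin N) with h | h
  · exact ⟨1, one_pos, fun i => h.elim i⟩
  · obtain ⟨i, -, hi⟩ := Finset.exists_min_image Finset.univ a Finset.univ_nonempty
    exact ⟨a i, ha i, fun j => hi j (Finset.mem_univ j)⟩

theorem v_t0 (p : Nat.Primes) : v p (t0 p) = (p : ℝ) ^ 2 := by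
  rw [t0, Pool.Agent.H12.ZD.v_inv, Pool.Agent.H12.ZD.v_pow, Pool.Agent.H12.ZD.v_self, inv_pow,
    inv_inv]

theorem t0_ne (p : Nat.Primes) : t0 p ≠ 0 := by
  rw [t0]
  exact inv_ne_zero (pow_ne_zero _ (by exact_mod_cast p.2.ne_zero))

theorem v_zpow (p : Nat.Primes) (x : Qb) (n : ℤ) : v p (x ^ n) = v p x ^ n := by
  rcases n with n | n
  · rw [Int.ofNat_eq_natCast, zpow_natCast, zpow_natCast, Pool.Agent.H12.ZD.v_pow]
  · rw [zpow_negSucc, zpow_negSucc, Pool.Agent.H12.ZD.v_inv, Pool.Agent.H12.ZD.v_pow]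

theorem ort_pow {N : ℕ} {p : Nat.Primes} {w : Fin N → ℤ} {A : Matrix (Fin N) (Fin N) ℤ}
    {c : Fin N → Qb} {δ : ℕ} {y : ℕ → Fin N → Qb} (h : CS p w A c δ y) (k : ℕ) :
    ∀ γ, Ort w γ → Ort w (Matrix.vecMul γ (A ^ k)) := by
  induction k with
  | zero => intro γ hγ; rwa [pow_zero, Matrix.vecMul_one]
  | succ k ih =>
    intro γ hγ
    rw [pow_succ, ← Matrix.vecMul_vecMul]
    exact h.ort _ (ih γ hγ)

theorem exists_dense (hPW : T_PW) (hMV : T_MV) (hKAP : T_KAP) (hBLM : T_BLM) (hCHD : T_CHD)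
    (hTAY : T_TAY) (hEE : T_EE) (hTIE : T_TIE) (hEXQ : T_EXQ) (hLNF : T_LNF)
    (hEVL : T_EVL) (hORB : T_ORB) (hPSI : T_PSI) (hREL : T_REL) (hFRB : T_FRB)
    (hVG : T_VG) (hLOW : T_LOW) (hLMA : T_LMA) (hLMB : T_LMB) (hBAS : T_BAS)
    {N : ℕ} (D : Dat N) (hD : D.Ok)
    (hNF : ∀ γ, γ ≠ 0 → Ort D.w γ → ∀ k, 1 ≤ k → Matrix.vecMul γ (D.A ^ k) = γ →
      mon D.c (Matrix.vecMul γ (geo D.A k)) ≠ 1) :
    ∃ M : ℕ, ∀ p : Nat.Primes, M < (p : ℕ) → ∃ (t : Fin N → Qb) (ε : ℝ), 0 < ε ∧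
      ∀ x : Fin N → Qb, (∀ i, v p (x i - t i) < ε) →
        (∀ n i, eval (D.map^[n] x) (D.Q i) ≠ 0) ∧
        ∀ R : MvPolynomial (Fin N) Qb, (∀ n, eval (D.map^[n] x) R = 0) → R = 0 := by
  classical
  obtain ⟨D₀, hD₀, hVG'⟩ := hVG N D.c
  obtain ⟨l, hl, hlp⟩ := Nat.exists_infinite_primes (max N D₀ + 1)
  have hNl : N < l := by have := le_max_left N D₀; omega
  have hDl : D₀ < l := by have := le_max_right N D₀; omega
  -- the polynomial whose zeros have to be avoided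
  have hG0 : D.U * D.V * ∏ i, D.QL i ≠ 0 :=
    mul_ne_zero (mul_ne_zero hD.U0 hD.V0) (Finset.prod_ne_zero_iff.2 fun i _ => hD.QL0 i)
  obtain ⟨M₁, hM₁⟩ := hFRB N D.A hD.det D.c hD.c0 _ hG0
  obtain ⟨M₂, hM₂⟩ := exists_bound_fam fun i => exists_bound_coeff (D.P i)
  obtain ⟨M₃, hM₃⟩ := exists_bound_fam fun i => exists_bound_coeff (D.Q i)
  obtain ⟨M₄, hM₄⟩ := exists_bound_fam fun i => exists_bound_coeff (D.PL i)
  obtain ⟨M₅, hM₅⟩ := exists_bound_fam fun i => exists_bound_coeff (D.QL i)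
  obtain ⟨M₆, hM₆⟩ := exists_bound_coeff D.U
  obtain ⟨M₇, hM₇⟩ := exists_bound_coeff D.V
  obtain ⟨M₈, hM₈⟩ := exists_bound_fam fun i =>
    Pool.Agent.H12.ZD.exists_bound_eq (hD.c0 i)
  refine ⟨M₁ + M₂ + M₃ + M₄ + M₅ + M₆ + M₇ + M₈ + D.A.det.natAbs + 2, fun p hp => ?_⟩
  have hp2 : (p : ℕ) ≠ 2 := by omega
  have hpdet : ¬ ((p : ℕ) : ℤ) ∣ D.A.det := by
    intro h
    have h1 := Int.natAbs_dvd_natAbs.2 h
    rw [Int.natAbs_natCast] at h1
    have h2 := Nat.le_of_dvd (Int.natAbs_pos.2 hD.det) h1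
    omega
  have hp0 : 0 < (p : ℝ) := by exact_mod_cast p.2.pos
  have hp1 : 1 < (p : ℝ) := by exact_mod_cast p.2.one_lt
  have hpi : (p : ℝ)⁻¹ < 1 := inv_lt_one_of_one_lt₀ hp1
  obtain ⟨ξ, L, r, hr1, hL1, hpL, hroot, hres⟩ := hM₁ p (by omega)
  obtain ⟨π, hπ⟩ := IsAlgClosed.exists_pow_nat_eq (((p : ℕ) : Qb)) hlp.pos
  -- absolute values
  have hξ1 : ∀ i, v p (ξ i) = 1 := by
    intro i
    have h1 : v p (ξ i) ^ L = 1 := by
      rw [← Pool.Agent.H12.ZD.v_pow, hroot i, Pool.Agent.H12.ZD.v_one]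
    exact (pow_eq_one_iff_of_nonneg (Pool.Agent.H12.ZD.v_nonneg p _) (by omega)).1 h1
  have hπ1 : v p π ≤ 1 := by
    by_contra hcon
    rw [not_le] at hcon
    have h1 : v p π ^ l = (p : ℝ)⁻¹ := by
      rw [← Pool.Agent.H12.ZD.v_pow, hπ, Pool.Agent.H12.ZD.v_self]
    have h2 : 1 ≤ v p π ^ l := one_le_pow₀ hcon.le
    rw [h1] at h2
    exact absurd h2 (not_le.2 hpi)
  set q : ℕ → Fin N → Qb := fun n i => ξ i ^ (((p : ℕ) ^ r) ^ n) with hq
  have hq1 : ∀ n i, v p (q n i) = 1 := by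
    intro n i
    simp only [hq]
    rw [Pool.Agent.H12.ZD.v_pow, hξ1, one_pow]
  have hle : ∀ (n : ℕ) (F : MvPolynomial (Fin N) Qb), (∀ m, v p (coeff m F) ≤ 1) →
      v p (eval (q n) F) ≤ 1 := by
    intro n F hF
    exact ((hEVL N 0 F 0 p 1 (q n) one_ne_zero).2.2 (q n) hF (fun i => (hq1 n i).le)
      (fun i => (hq1 n i).le)).1
  have hU1 : ∀ m, v p (coeff m D.U) ≤ 1 := hM₆ p (by omega)
  have hV1 : ∀ m, v p (coeff m D.V) ≤ 1 := hM₇ p (by omega)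
  have hQL1 : ∀ i m, v p (coeff m (D.QL i)) ≤ 1 := hM₅ p (by omega)
  have hprod : ∀ n, v p (eval (q n) D.U) * v p (eval (q n) D.V) *
      ∏ i, v p (eval (q n) (D.QL i)) = 1 := by
    intro n
    have h1 := (hres n).1
    rw [map_mul, map_mul, map_prod, Pool.Agent.H12.ZD.v_mul, Pool.Agent.H12.ZD.v_mul] at h1
    have h2 : v p (∏ i, eval (q n) (D.QL i)) = ∏ i, v p (eval (q n) (D.QL i)) := by
      have : ∀ s : Finset (Fin N), v p (∏ i ∈ s, eval (q n) (D.QL i)) =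
          ∏ i ∈ s, v p (eval (q n) (D.QL i)) := by
        intro s
        induction s using Finset.induction_on with
        | empty => simp
        | insert i s hi ih =>
          rw [Finset.prod_insert hi, Finset.prod_insert hi, Pool.Agent.H12.ZD.v_mul, ih]
      exact this _
    rw [← h2]
    exact h1
  have hone : ∀ {a b : ℝ}, 0 ≤ a → 0 ≤ b → a ≤ 1 → b ≤ 1 → a * b = 1 → a = 1 ∧ b = 1 := by
    intro a b ha hb ha1 hb1 hab
    constructor <;> nlinarith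
  have hpn : ∀ n, 0 ≤ ∏ i, v p (eval (q n) (D.QL i)) := fun n =>
    Finset.prod_nonneg fun i _ => Pool.Agent.H12.ZD.v_nonneg p _
  have hpl : ∀ n, ∏ i, v p (eval (q n) (D.QL i)) ≤ 1 := fun n =>
    Finset.prod_le_one (fun i _ => Pool.Agent.H12.ZD.v_nonneg p _)
      (fun i _ => hle n _ (hQL1 i))
  have hUV : ∀ n, v p (eval (q n) D.U) = 1 ∧ v p (eval (q n) D.V) = 1 ∧
      ∏ i, v p (eval (q n) (D.QL i)) = 1 := by
    intro n
    have hu := hle n _ hU1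
    have hv := hle n _ hV1
    have hu0 := Pool.Agent.H12.ZD.v_nonneg p (eval (q n) D.U)
    have hv0 := Pool.Agent.H12.ZD.v_nonneg p (eval (q n) D.V)
    obtain ⟨h1, h2⟩ := hone (mul_nonneg hu0 hv0) (hpn n) (mul_le_one₀ hu hv0 hv) (hpl n) (hprod n)
    obtain ⟨h3, h4⟩ := hone hu0 hv0 hu hv h1
    exact ⟨h3, h4, h2⟩
  have hQ1 : ∀ n i, v p (eval (q n) (D.QL i)) = 1 := by
    intro n i
    have h1 := (hUV n).2.2
    rw [← Finset.mul_prod_erase _ _ (Finset.mem_univ i)] at h1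
    exact (hone (Pool.Agent.H12.ZD.v_nonneg p _)
      (Finset.prod_nonneg fun i _ => Pool.Agent.H12.ZD.v_nonneg p _) (hle n _ (hQL1 i))
      (Finset.prod_le_one (fun i _ => Pool.Agent.H12.ZD.v_nonneg p _)
        (fun i _ => hle n _ (hQL1 i))) h1).1
  have hgood : GoodP p D q :=
    { cP := hM₂ p (by omega)
      cQ := hM₃ p (by omega)
      cPL := hM₄ p (by omega)
      cQL := hQL1
      cU := hU1
      cV := hV1
      c1 := hM₈ p (by omega)
      q1 := hq1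
      qs := fun n i => (hres n).2 i
      qU := fun n => (hUV n).1
      qV := fun n => (hUV n).2.1
      qQ := hQ1 }
  -- the centre of the ball
  set b : Fin N → Qb := fun i : Fin N => 1 + ((p : ℕ) : Qb) * π ^ ((i : ℕ) + 1) with hb
  have hb1 : ∀ i, v p (b i - 1) ≤ (p : ℝ)⁻¹ := by
    intro i
    simp only [hb]
    rw [add_sub_cancel_left, Pool.Agent.H12.ZD.v_mul, Pool.Agent.H12.ZD.v_self,
      Pool.Agent.H12.ZD.v_pow]
    exact mul_le_of_le_one_right (inv_nonneg.2 hp0.le)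
      (pow_le_one₀ (Pool.Agent.H12.ZD.v_nonneg p _) hπ1)
  have ht0 : ∀ i, 0 < v p (t0 p ^ D.w i) := fun i =>
    (Pool.Agent.H12.ZD.v_pos p).2 (zpow_ne_zero _ (t0_ne p))
  obtain ⟨ε, hε, hεle⟩ := exists_pos_le (fun i => ((p : ℝ)⁻¹) ^ 2 * v p (t0 p ^ D.w i))
    (fun i => mul_pos (pow_pos (inv_pos.2 hp0) 2) (ht0 i))
  refine ⟨fun i => t0 p ^ D.w i * (ξ i * b i), ε, hε, fun x hx => ?_⟩
  -- the normalised coordinates of the initial point
  set y₀ : Fin N → Qb := fun i => x i / t0 p ^ D.w i with hy₀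
  have hxy : ∀ i, x i = t0 p ^ D.w i * y₀ i := by
    intro i
    simp only [hy₀]
    rw [mul_div_cancel₀ _ (zpow_ne_zero _ (t0_ne p))]
  have hyb : ∀ i, v p (y₀ i - ξ i * b i) ≤ ((p : ℝ)⁻¹) ^ 2 := by
    intro i
    have h1 := (hx i).le.trans (hεle i)
    have h2 : x i - t0 p ^ D.w i * (ξ i * b i) = t0 p ^ D.w i * (y₀ i - ξ i * b i) := by
      rw [mul_sub, ← hxy]
    rw [h2, Pool.Agent.H12.ZD.v_mul, mul_comm] at h1
    exact le_of_mul_le_mul_right h1 (ht0 i)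
  have hyq : ∀ i, v p (y₀ i - q 0 i) < 1 := by
    intro i
    have h1 : y₀ i - q 0 i = (y₀ i - ξ i * b i) + ξ i * (b i - 1) := by
      simp only [hq]
      rw [pow_zero, pow_one]
      ring
    rw [h1]
    refine Pool.Agent.H12.ZD.v_add_lt p ?_ ?_
    · refine (hyb i).trans_lt ?_
      exact pow_lt_one₀ (inv_nonneg.2 hp0.le) hpi two_ne_zero
    · rw [Pool.Agent.H12.ZD.v_mul, hξ1, one_mul]
      exact (hb1 i).trans_lt hpi
  obtain ⟨y, hy0, hOrb⟩ := hORB N D hD p q hgood x y₀ hxy hyq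
  refine ⟨hOrb.def_, fun R hR => ?_⟩
  obtain ⟨hCS, hresid⟩ := hPSI N D hD p q hgood x y hOrb
  have hIni : Ini p D.w y ξ L r b :=
    { r1 := hr1
      L1 := hL1
      pL := hpL
      root := hroot
      b1 := hb1
      y0 := fun i => by rw [hy0]; exact hyb i
      res := hresid }
  obtain ⟨k, hk1, hkA, hkone⟩ := hLMA p N D.w D.A D.c D.δ y ξ L r b hp2 hpdet hCS hIni
  obtain ⟨χ, hχlim, hχ1, hχmul, hχrec, hχone⟩ :=
    hLMB p N D.w D.A D.c D.δ y k hp2 hCS hk1 hkA hkone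
  obtain ⟨m, Φ, C', hΦ, hΦs, hΦi, hΦc, hC', hΦd⟩ :=
    hBAS N D.w (D.A ^ k) p p.2 (ort_pow hCS k) hkA
  obtain ⟨V, hV⟩ := hMV p m C' p.2 hp2 hC'
  -- the lower bound for the limits
  have hlow : ∀ γ, Ort D.w γ → ¬ Dv p γ → ∀ (j : ℕ) (η : Fin N → ℤ),
      ((p : ℝ)⁻¹) ^ (j + 2) ≤ ‖χ ((p : ℕ) ^ j • γ) 0 ^ L * em p (mon D.c η) - 1‖ := by
    intro γ hγ hγp j η
    have hγj : Ort D.w ((p : ℕ) ^ j • γ) := by
      unfold Ort at hγ ⊢
      have h1 : ∀ i, ((p : ℕ) ^ j • γ) i * D.w i = ((p : ℕ) ^ j : ℤ) * (γ i * D.w i) := by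
        intro i
        rw [Pi.smul_apply, nsmul_eq_mul]
        push_cast
        ring
      rw [Finset.sum_congr rfl fun i _ => h1 i, ← Finset.mul_sum, hγ, mul_zero]
    have h2 := hχlim _ hγj 0
    have h3 : Tendsto (fun T : ℕ =>
        ‖em p (mon (y (k * ((p : ℕ) ^ T + 0))) ((p : ℕ) ^ j • γ)) ^ L * em p (mon D.c η) - 1‖)
        atTop (𝓝 ‖χ ((p : ℕ) ^ j • γ) 0 ^ L * em p (mon D.c η) - 1‖) :=
      (((h2.pow L).mul_const _).sub_const _).norm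
    refine ge_of_tendsto' h3 fun T => ?_
    have h4 := hLOW p N l D₀ π D.w D.A D.c D.δ y ξ L r hp2 hlp hNl hDl hD₀ hπ (hVG' p) hCS hIni
      (k * ((p : ℕ) ^ T + 0)) (by
        rw [pow_mul_sub_one]
        exact hkA.mul_right _) γ hγ hγp j η
    refine h4.trans (le_of_eq ?_)
    rw [← map_pow, ← map_mul, ← map_one (em p), ← map_sub, norm_em]
  have hnd := nd_main hPW p hp2 D.w D.A D.c hD.c0 k
    (fun γ hγ0 hγ hγk => hNF γ hγ0 hγ k hk1 hγk) χ L hlow hχ1 hχmul hχrec hχone Φ C' hΦ hΦi hΦc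
    hΦd V hV
  -- the relation
  by_contra hR0
  obtain ⟨S, s, hSne, hs0, hSort, hSlim⟩ := hREL N D hD p q x y hOrb R hR0 hR
  have hrel : ∀ j, ∑ γ ∈ S, em p (s γ) * χ γ j = 0 := by
    intro j
    have h1 : Tendsto (fun T : ℕ => ∑ γ ∈ S, em p (s γ) *
        em p (mon (y (k * ((p : ℕ) ^ T + j))) γ)) atTop (𝓝 (∑ γ ∈ S, em p (s γ) * χ γ j)) :=
      tendsto_finsetSum _ fun γ hγ => (hχlim γ (hSort γ hγ) j).const_mul _
    have h2 : Tendsto (fun T : ℕ => k * ((p : ℕ) ^ T + j)) atTop atTop := by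
      refine tendsto_atTop_mono (f := fun T : ℕ => T) (fun T => ?_) tendsto_id
      have h3 : T < (p : ℕ) ^ T := Nat.lt_pow_self p.2.one_lt
      nlinarith
    have h3 : Tendsto (fun T : ℕ => ‖∑ γ ∈ S, em p (s γ) *
        em p (mon (y (k * ((p : ℕ) ^ T + j))) γ)‖) atTop (𝓝 0) := by
      have h4 := hSlim.comp h2
      refine h4.congr fun T => ?_
      simp only [Function.comp]
      rw [← norm_em, map_sum]
      simp only [map_mul]
    have h5 := tendsto_nhds_unique h1.norm h3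
    exact norm_eq_zero.1 h5
  choose! g hg using hΦs
  have hginj : ∀ γ ∈ S, ∀ γ' ∈ S, g γ = g γ' → γ = γ' := by
    intro γ hγ γ' hγ' h
    rw [← hg γ (hSort γ hγ), ← hg γ' (hSort γ' hγ'), h]
  have hfin := at_main hKAP hBLM hCHD hTAY hEE hTIE hEXQ hLNF p m ℂ_[(p : ℕ)] (pk p hp2) C' V hV
    (fun a j => χ (Matrix.vecMul a Φ) j)
    (fun a => em p (mon D.c (Matrix.vecMul (Matrix.vecMul a Φ) (geo D.A k))))
    (fun a j => by
      intro h
      have h1 := hχ1 _ (hΦ a) j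
      rw [h, norm_zero] at h1
      exact zero_ne_one h1)
    (fun a b j => by
      show χ (Matrix.vecMul (a + b) Φ) j = _
      rw [Matrix.add_vecMul]
      exact hχmul _ _ (hΦ a) (hΦ b) j)
    (fun a j => by
      show χ (Matrix.vecMul a Φ) (j + 1) = _ * χ (Matrix.vecMul (Matrix.vecMul a C') Φ) j
      rw [hΦc]
      exact hχrec _ (hΦ a) j)
    (fun a => hχone _ (hΦ a)) hnd (S.image g) (fun a => em p (s (Matrix.vecMul a Φ))) (by
      intro j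
      rw [Finset.sum_image hginj]
      refine Eq.trans ?_ (hrel j)
      refine Finset.sum_congr rfl fun γ hγ => ?_
      rw [hg γ (hSort γ hγ)])
  obtain ⟨γ, hγ⟩ := hSne
  have h1 : em p (s (Matrix.vecMul (g γ) Φ)) = 0 := hfin (g γ) (Finset.mem_image_of_mem g hγ)
  rw [hg γ (hSort γ hγ)] at h1
  exact hs0 γ hγ ((em p).injective (by rw [h1, map_zero]))

end Pool.Agent.H16.ZW
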