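import Pool.Agent.H16.ZW.MainC

/-!
# Statement-level forms of the main theorem
-/

open Filter Topology MvPolynomial

namespace Pool.Agent.H16.ZW

open Pool.Agent.H12.ZD (v emb)

/-- the conclusion of the main theorem -/
def Concl {N : ℕ} (P Q : Fin N → MvPolynomial (Fin N) Qb) : Prop :=
  ∃ M : ℕ, ∀ p : Nat.Primes, M < (p : ℕ) → ∃ (t : Fin N → Qb) (ε : ℝ), 0 < ε ∧
    ∀ x : Fin N → Qb, (∀ i, v p (x i - t i) < ε) →
      (∀ n i, eval ((fun (y : Fin N → Qb) (j : Fin N) => eval y (P j) / eval y (Q j))^[n] x)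
        (Q i) ≠ 0) ∧
      ∀ R : MvPolynomial (Fin N) Qb,
        (∀ n, eval ((fun (y : Fin N → Qb) (j : Fin N) => eval y (P j) / eval y (Q j))^[n] x)
          R = 0) → R = 0

/-- the main theorem for all data -/
def T_MAIN : Prop := ∀ (N : ℕ) (D : Dat N), D.Ok →
  (∀ γ, γ ≠ 0 → Ort D.w γ → ∀ k, 1 ≤ k → Matrix.vecMul γ (D.A ^ k) = γ →
    mon D.c (Matrix.vecMul γ (geo D.A k)) ≠ 1) → Concl D.P D.Q

/-- the form with rational functions -/
theorem concl_of_main (hM : T_MAIN) (hIDN : T_IDN) {N : ℕ}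
    (P Q PL QL : Fin N → MvPolynomial (Fin N) Qb) (U V : MvPolynomial (Fin N) Qb)
    (w : Fin N → ℤ) (A : Matrix (Fin N) (Fin N) ℤ) (c : Fin N → Qb) (d μU μV : ℤ)
    (a b : Fin N → ℤ) (hU0 : U ≠ 0) (hV0 : V ≠ 0) (hQ0 : ∀ i, QL i ≠ 0) (hc0 : ∀ i, c i ≠ 0)
    (hdet : A.det ≠ 0) (heig : ∀ i, ∑ j, A i j * w j = d * w i) (hδ : 2 ≤ d + μU - μV)
    (hU : Hom w U μU) (hV : Hom w V μV) (hPL : ∀ i, Hom w (PL i) (a i))
    (hQL : ∀ i, Hom w (QL i) (b i)) (hP : ∀ i, Low w (P i - PL i) (a i))
    (hQ : ∀ i, Low w (Q i - QL i) (b i))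
    (hlead : ∀ i, algebraMap (MvPolynomial (Fin N) Qb)
        (FractionRing (MvPolynomial (Fin N) Qb)) (PL i) /
      algebraMap (MvPolynomial (Fin N) Qb) (FractionRing (MvPolynomial (Fin N) Qb)) (QL i) =
      algebraMap (MvPolynomial (Fin N) Qb) (FractionRing (MvPolynomial (Fin N) Qb)) (C (c i)) *
        (∏ j, algebraMap (MvPolynomial (Fin N) Qb) (FractionRing (MvPolynomial (Fin N) Qb))
          (X j) ^ A i j) *
        (algebraMap (MvPolynomial (Fin N) Qb) (FractionRing (MvPolynomial (Fin N) Qb)) U /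
          algebraMap (MvPolynomial (Fin N) Qb)
            (FractionRing (MvPolynomial (Fin N) Qb)) V) ^ w i)
    (hNF : ∀ γ : Fin N → ℤ, γ ≠ 0 → ∑ i, γ i * w i = 0 → ∀ k, 1 ≤ k →
      Matrix.vecMul γ (A ^ k) = γ →
      ∏ i, c i ^ (Matrix.vecMul γ (∑ j ∈ Finset.range k, A ^ j)) i ≠ 1) : Concl P Q := by
  have h := hM N ⟨w, A, c, U, V, P, Q, PL, QL, d, μU, μV, (d + μU - μV).toNat, a, b⟩
    { det := hdet
      eig := heig
      c0 := hc0
      U0 := hU0
      V0 := hV0
      QL0 := hQ0
      hU := hU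
      hV := hV
      hPL := hPL
      hQL := hQL
      hP := hP
      hQ := hQ
      idn := fun x hx hxU hxV hxQ i =>
        hIDN N U V (PL i) (QL i) (c i) (A i) (w i) hU0 hV0 (hQ0 i) (hlead i) x hx hxU hxV (hxQ i)
      del := by
        show (((d + μU - μV).toNat : ℕ) : ℤ) = d + μU - μV
        rw [Int.toNat_of_nonneg (by omega)]
      two := by
        show 2 ≤ (d + μU - μV).toNat
        omega }
    hNF
  exact h

/-- values of iterated polynomial maps -/
theorem eval_iter {N : ℕ} (f : Fin N → MvPolynomial (Fin N) Qb) (k : ℕ) (x : Fin N → Qb) :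
    (fun i => eval x ((fun (g : Fin N → MvPolynomial (Fin N) Qb) (i : Fin N) =>
      aeval g (f i))^[k] (fun i => X i) i)) =
      (fun (y : Fin N → Qb) (i : Fin N) => eval y (f i))^[k] x := by
  induction k generalizing x with
  | zero =>
    funext i
    simp
  | succ k ih =>
    rw [Function.iterate_succ_apply', Function.iterate_succ_apply']
    funext i
    rw [← ih x]
    have h1 : ∀ (g : Fin N → MvPolynomial (Fin N) Qb) (G : MvPolynomial (Fin N) Qb),
        eval x (aeval g G) = eval (fun j => eval x (g j)) G := by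
      intro g G
      induction G using MvPolynomial.induction_on with
      | C a => simp
      | add p q hp hq => rw [map_add, map_add, map_add, hp, hq]
      | mul_X p j hp => rw [map_mul, map_mul, map_mul, hp, aeval_X, eval_X]
    exact h1 _ _

/-- the form for polynomial maps, with a condition on an iterate -/
theorem poly_of_main (hM : T_MAIN) {N : ℕ} (f : Fin N → MvPolynomial (Fin N) Qb) (k : ℕ)
    (M : MvPolynomial (Fin N) Qb) (g : Fin N → MvPolynomial (Fin N) Qb)
    (w : Fin N → ℤ) (A : Matrix (Fin N) (Fin N) ℕ) (c : Fin N → Qb) (d μ : ℤ)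
    (hM0 : M ≠ 0) (hMw : M = 1 ∨ ∀ i, 0 ≤ w i) (hc0 : ∀ i, c i ≠ 0)
    (hdet : (A.map (Nat.cast : ℕ → ℤ)).det ≠ 0) (heig : ∀ i, ∑ j, (A i j : ℤ) * w j = d * w i)
    (hδ : 2 ≤ d + μ) (hMh : Hom w M μ) (hg : ∀ i, Low w (g i) ((d + μ) * w i))
    (hf : ∀ i, (fun (h : Fin N → MvPolynomial (Fin N) Qb) (i : Fin N) =>
      aeval h (f i))^[k] (fun i => X i) i =
      C (c i) * (∏ j, X j ^ A i j) * M ^ (w i).toNat + g i)
    (hNF : ∀ γ : Fin N → ℤ, γ ≠ 0 → ∑ i, γ i * w i = 0 → ∀ l, 1 ≤ l →
      Matrix.vecMul γ (A.map (Nat.cast : ℕ → ℤ) ^ l) = γ →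
      ∏ i, c i ^ (Matrix.vecMul γ (∑ j ∈ Finset.range l, A.map (Nat.cast : ℕ → ℤ) ^ j)) i ≠ 1) :
    ∃ L : ℕ, ∀ p : Nat.Primes, L < (p : ℕ) → ∃ (t : Fin N → Qb) (ε : ℝ), 0 < ε ∧
      ∀ x : Fin N → Qb, (∀ i, v p (x i - t i) < ε) → ∀ R : MvPolynomial (Fin N) Qb,
        (∀ n, eval ((fun (y : Fin N → Qb) (i : Fin N) => eval y (f i))^[n] x) R = 0) →
        R = 0 := by
  set F : Fin N → MvPolynomial (Fin N) Qb :=
    (fun (h : Fin N → MvPolynomial (Fin N) Qb) (i : Fin N) => aeval h (f i))^[k]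
      (fun i => X i) with hF
  have hX : ∀ i : Fin N, ∀ m ∈ (X i : MvPolynomial (Fin N) Qb).support,
      ∑ j, (m j : ℤ) * w j = w i := by
    intro i m hm
    rw [support_X, Finset.mem_singleton] at hm
    subst hm
    rw [Finset.sum_eq_single i]
    · rw [Finsupp.single_eq_same, Nat.cast_one, one_mul]
    · intro j _ hj
      rw [Finsupp.single_eq_of_ne hj, Nat.cast_zero, zero_mul]
    · intro h
      exact absurd (Finset.mem_univ i) h
  have hmul : ∀ (G H : MvPolynomial (Fin N) Qb) (s t : ℤ), Hom w G s → Hom w H t →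
      Hom w (G * H) (s + t) := by
    intro G H s t hG hH m hm
    obtain ⟨m₁, h₁, m₂, h₂, rfl⟩ := Finset.mem_add.1 (support_mul G H hm)
    rw [← hG m₁ h₁, ← hH m₂ h₂, ← Finset.sum_add_distrib]
    refine Finset.sum_congr rfl fun j _ => ?_
    rw [Finsupp.add_apply]
    push_cast
    ring
  have hC : ∀ a : Qb, Hom w (C a : MvPolynomial (Fin N) Qb) 0 := by
    intro a m hm
    have hm0 : m = 0 := by
      by_contra h
      rw [mem_support_iff, coeff_C, if_neg (Ne.symm h)] at hm
      exact hm rfl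
    subst hm0
    simp
  have hpow : ∀ (G : MvPolynomial (Fin N) Qb) (s : ℤ), Hom w G s → ∀ n : ℕ,
      Hom w (G ^ n) (n * s) := by
    intro G s hG n
    induction n with
    | zero =>
      rw [pow_zero, Nat.cast_zero, zero_mul]
      have := hC 1
      rwa [map_one] at this
    | succ n ih =>
      rw [pow_succ]
      have := hmul _ _ _ _ ih hG
      have e : (n : ℤ) * s + s = ((n + 1 : ℕ) : ℤ) * s := by push_cast; ring
      rwa [e] at this
  have hprod : ∀ (S : Finset (Fin N)) (i : Fin N),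
      Hom w (∏ j ∈ S, (X j : MvPolynomial (Fin N) Qb) ^ A i j) (∑ j ∈ S, (A i j : ℤ) * w j) := by
    intro S i
    induction S using Finset.induction_on with
    | empty =>
      rw [Finset.prod_empty, Finset.sum_empty]
      have := hC 1
      rwa [map_one] at this
    | insert j S hj ih =>
      rw [Finset.prod_insert hj, Finset.sum_insert hj]
      exact hmul _ _ _ _ (hpow _ _ (hX j) _) ih
  have hwM : ∀ i, M ^ (w i).toNat = 1 ∧ μ * w i = 0 ∨ ((w i).toNat : ℤ) = w i := by
    intro i
    rcases hMw with h | h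
    · left
      refine ⟨by rw [h, one_pow], ?_⟩
      have h1 : μ = 0 := by
        have h2 := hMh 0 (by
          rw [h, mem_support_iff]
          simp)
        rw [← h2]
        simp
      rw [h1, zero_mul]
    · right
      exact Int.toNat_of_nonneg (h i)
  have hPL : ∀ i, Hom w (C (c i) * (∏ j, X j ^ A i j) * M ^ (w i).toNat) ((d + μ) * w i) := by
    intro i
    have h1 := hmul _ _ _ _ (hC (c i)) (hprod Finset.univ i)
    rw [heig i, zero_add] at h1
    have h2 := hmul _ _ _ _ h1 (hpow M μ hMh (w i).toNat)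
    rcases hwM i with ⟨h3, h4⟩ | h3
    · rw [h3] at h2 ⊢
      have h5 := hmul _ _ _ _ h1 (by
        have := hC 1
        rwa [map_one] at this : Hom w (1 : MvPolynomial (Fin N) Qb) 0)
      have e : d * w i + 0 = (d + μ) * w i := by rw [add_mul, h4]
      rwa [e] at h5
    · rw [h3] at h2
      have e : d * w i + w i * μ = (d + μ) * w i := by ring
      rwa [e] at h2
  have hone : ∀ x : Fin N → Qb, eval x (1 : MvPolynomial (Fin N) Qb) = 1 := fun x => map_one _
  obtain ⟨L, hL⟩ := hM N ⟨w, A.map (Nat.cast : ℕ → ℤ), c, M, 1, F, fun _ => 1,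
    fun i => C (c i) * (∏ j, X j ^ A i j) * M ^ (w i).toNat, fun _ => 1, d, μ, 0,
    (d + μ).toNat, fun i => (d + μ) * w i, fun _ => 0⟩
    { det := hdet
      eig := heig
      c0 := hc0
      U0 := hM0
      V0 := one_ne_zero
      QL0 := fun _ => one_ne_zero
      hU := hMh
      hV := by
        have := hC 1
        rwa [map_one] at this
      hPL := hPL
      hQL := fun _ => by
        have := hC 1
        rwa [map_one] at this
      hP := fun i => by
        show Low w (F i - C (c i) * (∏ j, X j ^ A i j) * M ^ (w i).toNat) _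
        rw [hf i, add_sub_cancel_left]
        exact hg i
      hQ := fun i => by
        show Low w ((1 : MvPolynomial (Fin N) Qb) - 1) 0
        rw [sub_self]
        intro m hm
        rw [support_zero] at hm
        exact absurd hm (Finset.notMem_empty m)
      idn := fun x hx hxU hxV hxQ i => by
        show eval x (C (c i) * (∏ j, X j ^ A i j) * M ^ (w i).toNat) =
          eval x (1 : MvPolynomial (Fin N) Qb) * c i * mon x ((A.map (Nat.cast : ℕ → ℤ)) i) *
            (eval x M / eval x (1 : MvPolynomial (Fin N) Qb)) ^ w i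
        have h1 : mon x ((A.map (Nat.cast : ℕ → ℤ)) i) = ∏ j, x j ^ A i j := by
          unfold mon
          refine Finset.prod_congr rfl fun j _ => ?_
          rw [Matrix.map_apply, zpow_natCast]
        have h2 : (eval x M) ^ w i = (eval x M) ^ (w i).toNat := by
          rcases hMw with h | h
          · rw [h, hone, one_zpow, one_pow]
          · rw [← zpow_natCast, Int.toNat_of_nonneg (h i)]
        rw [h1, hone, div_one, h2, one_mul, map_mul, map_mul, map_prod, map_pow, eval_C]
        simp only [map_pow, eval_X]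
      del := by
        show (((d + μ).toNat : ℕ) : ℤ) = d + μ - 0
        rw [Int.toNat_of_nonneg (by omega)]
        ring
      two := by
        show 2 ≤ (d + μ).toNat
        omega }
    hNF
  refine ⟨L, fun p hp => ?_⟩
  obtain ⟨t, ε, hε, hx⟩ := hL p hp
  refine ⟨t, ε, hε, fun x hxt R hR => (hx x hxt).2 R fun n => ?_⟩
  have h1 : (fun (y : Fin N → Qb) (j : Fin N) =>
      eval y (F j) / eval y (1 : MvPolynomial (Fin N) Qb)) =
      (fun (y : Fin N → Qb) (i : Fin N) => eval y (f i))^[k] := by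
    funext y
    rw [← eval_iter f k y]
    funext i
    rw [hone, div_one]
  show eval ((fun (y : Fin N → Qb) (j : Fin N) =>
      eval y (F j) / eval y (1 : MvPolynomial (Fin N) Qb))^[n] x) R = 0
  rw [h1, ← Function.iterate_mul]
  exact hR _

end Pool.Agent.H16.ZW
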