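import Pool.Agent.H16.ZW.MainD

/-!
# Polynomial maps: dynamics near infinity and near a superattracting point
-/

open Filter Topology MvPolynomial

namespace Pool.Agent.H16.ZW

open Pool.Agent.H12.ZD (v emb)

section hom

variable {N : ℕ} {w : Fin N → ℤ}

theorem hom_mul {G H : MvPolynomial (Fin N) Qb} {s t : ℤ} (hG : Hom w G s) (hH : Hom w H t) :
    Hom w (G * H) (s + t) := by
  classical
  intro m hm
  obtain ⟨m₁, h₁, m₂, h₂, rfl⟩ := Finset.mem_add.1 (support_mul G H hm)
  rw [← hG m₁ h₁, ← hH m₂ h₂, ← Finset.sum_add_distrib]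
  refine Finset.sum_congr rfl fun j _ => ?_
  rw [Finsupp.add_apply]
  push_cast
  ring

theorem hom_C (a : Qb) : Hom w (C a : MvPolynomial (Fin N) Qb) 0 := by
  classical
  intro m hm
  have hm0 : m = 0 := by
    by_contra h
    rw [mem_support_iff, coeff_C, if_neg (Ne.symm h)] at hm
    exact hm rfl
  subst hm0
  simp

theorem hom_one : Hom w (1 : MvPolynomial (Fin N) Qb) 0 := by
  have := hom_C (w := w) 1
  rwa [map_one] at this

theorem hom_pow {G : MvPolynomial (Fin N) Qb} {s : ℤ} (hG : Hom w G s) (n : ℕ) :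
    Hom w (G ^ n) (n * s) := by
  induction n with
  | zero =>
    rw [pow_zero, Nat.cast_zero, zero_mul]
    exact hom_one
  | succ n ih =>
    rw [pow_succ]
    have := hom_mul ih hG
    have e : (n : ℤ) * s + s = ((n + 1 : ℕ) : ℤ) * s := by push_cast; ring
    rwa [e] at this

theorem hom_X (i : Fin N) : Hom w (X i : MvPolynomial (Fin N) Qb) (w i) := by
  classical
  intro m hm
  rw [support_X, Finset.mem_singleton] at hm
  subst hm
  rw [Finset.sum_eq_single i]
  · rw [Finsupp.single_eq_same, Nat.cast_one, one_mul]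
  · intro j _ hj
    rw [Finsupp.single_eq_of_ne hj, Nat.cast_zero, zero_mul]
  · intro h
    exact absurd (Finset.mem_univ i) h

theorem hom_prod (S : Finset (Fin N)) (e : Fin N → ℕ) :
    Hom w (∏ j ∈ S, (X j : MvPolynomial (Fin N) Qb) ^ e j) (∑ j ∈ S, (e j : ℤ) * w j) := by
  classical
  induction S using Finset.induction_on with
  | empty =>
    rw [Finset.prod_empty, Finset.sum_empty]
    exact hom_one
  | insert j S hj ih =>
    rw [Finset.prod_insert hj, Finset.sum_insert hj]
    exact hom_mul (hom_pow (hom_X j) _) ih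

theorem hom_smul {G : MvPolynomial (Fin N) Qb} {a : ℤ} (s : ℤ) (hG : Hom w G a) :
    Hom (fun i => s * w i) G (s * a) := by
  intro m hm
  rw [← hG m hm, Finset.mul_sum]
  exact Finset.sum_congr rfl fun j _ => by ring

end hom

/-- the form for polynomial maps, with a condition on an iterate, near infinity (`s = 1`) or near
the origin (`s = -1`) -/
theorem poly2_of_main (hM : T_MAIN) {N : ℕ} (f : Fin N → MvPolynomial (Fin N) Qb) (k : ℕ)
    (s : ℤ) (hs : s = 1 ∨ s = -1)
    (M : MvPolynomial (Fin N) Qb) (g : Fin N → MvPolynomial (Fin N) Qb)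
    (w : Fin N → ℤ) (A : Matrix (Fin N) (Fin N) ℕ) (c : Fin N → Qb) (d μ : ℤ)
    (hM0 : M ≠ 0) (hMw : M = 1 ∨ ∀ i, 0 ≤ w i) (hc0 : ∀ i, c i ≠ 0)
    (hdet : (A.map (Nat.cast : ℕ → ℤ)).det ≠ 0) (heig : ∀ i, ∑ j, (A i j : ℤ) * w j = d * w i)
    (hδ : 2 ≤ d + μ) (hMh : ∀ m ∈ M.support, ∑ j, (m j : ℤ) * w j = μ)
    (hg : ∀ i, ∀ m ∈ (g i).support, s * ∑ j, (m j : ℤ) * w j < s * ((d + μ) * w i))
    (hf : ∀ i, (fun (h : Fin N → MvPolynomial (Fin N) Qb) (i : Fin N) =>
      aeval h (f i))^[k] (fun i => X i) i =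
      C (c i) * (∏ j, X j ^ A i j) * M ^ (w i).toNat + g i)
    (hNF : ∀ γ : Fin N → ℤ, γ ≠ 0 → ∑ i, γ i * w i = 0 → ∀ l, 1 ≤ l →
      Matrix.vecMul γ (A.map (Nat.cast : ℕ → ℤ) ^ l) = γ →
      ∏ i, c i ^ (Matrix.vecMul γ (∑ j ∈ Finset.range l, A.map (Nat.cast : ℕ → ℤ) ^ j)) i ≠ 1) :
    ∃ L : ℕ, ∀ p : Nat.Primes, L < (p : ℕ) → ∃ (t : Fin N → Qb) (ε : ℝ), 0 < ε ∧
      ∀ x : Fin N → Qb, (∀ i, v p (x i - t i) < ε) → ∀ R : MvPolynomial (Fin N) Qb,
        (∀ n, eval ((fun (y : Fin N → Qb) (i : Fin N) => eval y (f i))^[n] x) R = 0) →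
        R = 0 := by
  classical
  set F : Fin N → MvPolynomial (Fin N) Qb :=
    (fun (h : Fin N → MvPolynomial (Fin N) Qb) (i : Fin N) => aeval h (f i))^[k]
      (fun i => X i) with hF
  have hss : s * s = 1 := by rcases hs with h | h <;> rw [h] <;> norm_num
  -- the case distinction for the factor `M`
  have hwM : ∀ i, (M ^ (w i).toNat = 1 ∧ μ * w i = 0) ∨ ((w i).toNat : ℤ) = w i := by
    intro i
    rcases hMw with h | h
    · left
      refine ⟨by rw [h, one_pow], ?_⟩
      have h1 : μ = 0 := by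
        have h2 := hMh 0 (by
          rw [h, mem_support_iff]
          simp)
        rw [← h2]
        simp
      rw [h1, zero_mul]
    · right
      exact Int.toNat_of_nonneg (h i)
  have hMhom : Hom w M μ := hMh
  have hPL : ∀ i, Hom w (C (c i) * (∏ j, X j ^ A i j) * M ^ (w i).toNat) ((d + μ) * w i) := by
    intro i
    have h1 := hom_mul (hom_C (w := w) (c i)) (hom_prod (w := w) Finset.univ (A i))
    rw [heig i, zero_add] at h1
    have h2 := hom_mul h1 (hom_pow hMhom (w i).toNat)
    rcases hwM i with ⟨h3, h4⟩ | h3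
    · rw [h3] at h2 ⊢
      have h5 := hom_mul h1 (hom_one (w := w))
      have e : d * w i + 0 = (d + μ) * w i := by rw [add_mul, h4]
      rwa [e] at h5
    · rw [h3] at h2
      have e : d * w i + w i * μ = (d + μ) * w i := by ring
      rwa [e] at h2
  have hone : ∀ x : Fin N → Qb, eval x (1 : MvPolynomial (Fin N) Qb) = 1 := fun x => map_one _
  -- the value of the leading part
  have hval : ∀ (x : Fin N → Qb) (i : Fin N),
      eval x (C (c i) * (∏ j, X j ^ A i j) * M ^ (w i).toNat) =
        c i * mon x ((A.map (Nat.cast : ℕ → ℤ)) i) * (eval x M) ^ w i := by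
    intro x i
    have h1 : mon x ((A.map (Nat.cast : ℕ → ℤ)) i) = ∏ j, x j ^ A i j := by
      unfold mon
      refine Finset.prod_congr rfl fun j _ => ?_
      rw [Matrix.map_apply, zpow_natCast]
    have h2 : (eval x M) ^ w i = (eval x M) ^ (w i).toNat := by
      rcases hMw with h | h
      · rw [h, hone, one_zpow, one_pow]
      · rw [← zpow_natCast, Int.toNat_of_nonneg (h i)]
    rw [h1, h2, map_mul, map_mul, map_prod, map_pow, eval_C]
    simp only [map_pow, eval_X]
  -- orthogonality for the weights `s * w i`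
  have hort : ∀ γ : Fin N → ℤ, ∑ i, γ i * (s * w i) = 0 → ∑ i, γ i * w i = 0 := by
    intro γ h
    have h1 : s * ∑ i, γ i * w i = 0 := by
      rw [Finset.mul_sum, ← h]
      exact Finset.sum_congr rfl fun i _ => by ring
    rcases hs with h2 | h2
    · rw [h2, one_mul] at h1
      exact h1
    · rw [h2] at h1
      linarith
  obtain ⟨U, V, μU, μV, hU0, hV0, hU, hV, hμ, hUV⟩ : ∃ (U V : MvPolynomial (Fin N) Qb)
      (μU μV : ℤ), U ≠ 0 ∧ V ≠ 0 ∧ Hom (fun i => s * w i) U μU ∧ Hom (fun i => s * w i) V μV ∧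
      μU - μV = μ ∧ ∀ (x : Fin N → Qb) (i : Fin N),
        (eval x U / eval x V) ^ (s * w i) = (eval x M) ^ w i := by
    rcases hs with h | h
    · subst h
      refine ⟨M, 1, μ, 0, hM0, one_ne_zero, ?_, ?_, sub_zero μ, fun x i => ?_⟩
      · have := hom_smul 1 hMhom
        rwa [one_mul] at this
      · have := hom_smul (w := w) 1 hom_one
        rwa [mul_zero] at this
      · rw [hone, div_one, one_mul]
    · subst h
      refine ⟨1, M, 0, -μ, one_ne_zero, hM0, ?_, ?_, by ring, fun x i => ?_⟩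
      · have := hom_smul (w := w) (-1) hom_one
        rwa [mul_zero] at this
      · have := hom_smul (-1) hMhom
        rwa [neg_one_mul] at this
      · rw [hone, one_div, inv_zpow', neg_mul, one_mul, neg_neg]
  obtain ⟨L, hL⟩ := hM N ⟨fun i => s * w i, A.map (Nat.cast : ℕ → ℤ), c, U, V, F, fun _ => 1,
    fun i => C (c i) * (∏ j, X j ^ A i j) * M ^ (w i).toNat, fun _ => 1, d, μU, μV,
    (d + μ).toNat, fun i => s * ((d + μ) * w i), fun _ => 0⟩
    { det := hdet
      eig := fun i => by
        show ∑ j, (A i j : ℤ) * (s * w j) = d * (s * w i)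
        have h1 : ∀ j, (A i j : ℤ) * (s * w j) = s * ((A i j : ℤ) * w j) := fun j => by ring
        rw [Finset.sum_congr rfl fun j _ => h1 j, ← Finset.mul_sum, heig i]
        ring
      c0 := hc0
      U0 := hU0
      V0 := hV0
      QL0 := fun _ => one_ne_zero
      hU := hU
      hV := hV
      hPL := fun i => hom_smul s (hPL i)
      hQL := fun _ => by
        have := hom_smul (w := w) s hom_one
        rwa [mul_zero] at this
      hP := fun i => by
        show Low (fun i => s * w i) (F i - C (c i) * (∏ j, X j ^ A i j) * M ^ (w i).toNat) _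
        rw [hf i, add_sub_cancel_left]
        intro m hm
        have h1 := hg i m hm
        have h2 : ∑ j, (m j : ℤ) * (s * w j) = s * ∑ j, (m j : ℤ) * w j := by
          rw [Finset.mul_sum]
          exact Finset.sum_congr rfl fun j _ => by ring
        rw [h2]
        exact h1
      hQ := fun i => by
        show Low _ ((1 : MvPolynomial (Fin N) Qb) - 1) 0
        rw [sub_self]
        intro m hm
        rw [support_zero] at hm
        exact absurd hm (Finset.notMem_empty m)
      idn := fun x hx hxU hxV hxQ i => by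
        show eval x (C (c i) * (∏ j, X j ^ A i j) * M ^ (w i).toNat) =
          eval x (1 : MvPolynomial (Fin N) Qb) * c i * mon x ((A.map (Nat.cast : ℕ → ℤ)) i) *
            (eval x U / eval x V) ^ (s * w i)
        rw [hval, hUV, hone, one_mul]
      del := by
        show (((d + μ).toNat : ℕ) : ℤ) = d + μU - μV
        rw [Int.toNat_of_nonneg (by omega)]
        linarith
      two := by
        show 2 ≤ (d + μ).toNat
        omega }
    (fun γ hγ0 hγ l hl hγl => hNF γ hγ0 (hort γ hγ) l hl hγl)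
  refine ⟨L, fun p hp => ?_⟩
  obtain ⟨t, ε, hε, hx⟩ := hL p hp
  refine ⟨t, ε, hε, fun x hxt R hR => (hx x hxt).2 R fun n => ?_⟩
  have h1 : (fun (y : Fin N → Qb) (j : Fin N) =>
      eval y (F j) / eval y (1 : MvPolynomial (Fin N) Qb)) =
      (fun (y : Fin N → Qb) (i : Fin N) => eval y (f i))^[k] := by
    funext y
    rw [← eval_iter f k y]
    funext i
    rw [hone, div_one]
  show eval ((fun (y : Fin N → Qb) (j : Fin N) =>
      eval y (F j) / eval y (1 : MvPolynomial (Fin N) Qb))^[n] x) R = 0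
  rw [h1, ← Function.iterate_mul]
  exact hR _

/-- a non-empty ball contains points outside any hypersurface -/
theorem exists_in_ball {N : ℕ} (p : Nat.Primes) (t : Fin N → Qb) {ε : ℝ} (hε : 0 < ε)
    (b : MvPolynomial (Fin N) Qb) (hb : b ≠ 0) :
    ∃ x : Fin N → Qb, (∀ i, v p (x i - t i) < ε) ∧ eval x b ≠ 0 := by
  by_contra hcon
  push Not at hcon
  apply hb
  have hinf : ∀ i, ({a : Qb | v p (a - t i) < ε}).Infinite := by
    intro i
    have hp1 : (1 : ℝ) < (p : ℝ) := by exact_mod_cast p.2.one_lt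
    have hpi : (p : ℝ)⁻¹ < 1 := inv_lt_one_of_one_lt₀ hp1
    have hpi0 : (0 : ℝ) < (p : ℝ)⁻¹ := inv_pos.2 (by linarith)
    obtain ⟨m, hm⟩ := exists_pow_lt_of_lt_one hε hpi
    refine Set.infinite_of_injective_forall_mem
      (f := fun n : ℕ => t i + ((p : ℕ) : Qb) ^ (m + n)) ?_ ?_
    · intro a b hab
      have h1 : ((p : ℕ) : Qb) ^ (m + a) = ((p : ℕ) : Qb) ^ (m + b) := add_left_cancel hab
      have h2 : (p : ℕ) ^ (m + a) = (p : ℕ) ^ (m + b) := by exact_mod_cast h1
      have h3 := Nat.pow_right_injective p.2.two_le h2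
      omega
    · intro n
      show v p (t i + ((p : ℕ) : Qb) ^ (m + n) - t i) < ε
      rw [add_sub_cancel_left, Pool.Agent.H12.ZD.v_pow, Pool.Agent.H12.ZD.v_self]
      refine lt_of_le_of_lt ?_ hm
      exact pow_le_pow_of_le_one hpi0.le hpi.le (Nat.le_add_right m n)
  refine MvPolynomial.funext_set (fun i => {a : Qb | v p (a - t i) < ε}) hinf fun x hx => ?_
  rw [map_zero]
  exact hcon x fun i => hx i (Set.mem_univ i)

end Pool.Agent.H16.ZW
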