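import Pool.Agent.H16.ZW.IdnG

/-!
# Specialisation of a finitely generated subring of a field to the algebraic numbers
-/

open MvPolynomial

universe u

namespace Pool.Agent.H16.ZW.Spec

variable {L : Type} [Field L] {k : Type u} [Field k] [Algebra L k]

/-- the element `x` of `k` reduces to the element `z` of `L` -/
def Red (B : ValuationSubring k) (x : k) (z : L) : Prop :=
  B.valuation (x - algebraMap L k z) < 1

/-- a finite set of elements of `k` and its reductions, non-zero elements having non-zero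
reductions -/
theorem exists_red [IsAlgClosed L] (S : Finset k) :
    ∃ (B : ValuationSubring k) (a : k → L), a 0 = 0 ∧
      (∀ z : L, z ≠ 0 → B.valuation (algebraMap L k z) = 1) ∧
      ∀ s ∈ S, Red B s (a s) ∧ (s ≠ 0 → a s ≠ 0) := by
  classical
  set T : Finset k := S ∪ S.image (fun s => s⁻¹) with hT
  set R : Subalgebra L k := Algebra.adjoin L (T : Set k) with hR
  have hTR : ∀ s ∈ T, s ∈ R := fun s hs => Algebra.subset_adjoin (by exact_mod_cast hs)
  have hSR : ∀ s ∈ S, s ∈ R := fun s hs => hTR s (Finset.mem_union_left _ hs)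
  have hSR' : ∀ s ∈ S, s⁻¹ ∈ R := fun s hs =>
    hTR _ (Finset.mem_union_right _ (Finset.mem_image_of_mem _ hs))
  have hfg : R.FG := Subalgebra.fg_adjoin_finset T
  have : Algebra.FiniteType L R := R.fg_iff_finiteType.1 hfg
  obtain ⟨m, hm⟩ := Ideal.exists_maximal R
  let _ : Field (R ⧸ m) := Ideal.Quotient.field m
  have : Algebra.FiniteType L (R ⧸ m) :=
    Algebra.FiniteType.of_surjective (Ideal.Quotient.mkₐ L m) (Ideal.Quotient.mkₐ_surjective L m)
  have : Module.Finite L (R ⧸ m) := finite_of_finite_type_of_isJacobsonRing L (R ⧸ m)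
  have hbij : Function.Bijective (Algebra.ofId L (R ⧸ m)) :=
    IsAlgClosed.algebraMap_bijective_of_isIntegral (k := L) (K := R ⧸ m)
  let e : L ≃ₐ[L] (R ⧸ m) := AlgEquiv.ofBijective (Algebra.ofId L (R ⧸ m)) hbij
  let φ : R →ₐ[L] L := (e.symm : (R ⧸ m) →ₐ[L] L).comp (Ideal.Quotient.mkₐ L m)
  have hφL : ∀ z : L, φ (algebraMap L R z) = z := fun z => φ.commutes z
  let ψ : R.toSubring →+* L :=
    { toFun := fun x => φ ⟨x.1, x.2⟩
      map_one' := φ.map_one
      map_mul' := fun x y => φ.map_mul _ _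
      map_zero' := φ.map_zero
      map_add' := fun x y => φ.map_add _ _ }
  have hker : RingHom.ker ψ ≠ ⊤ := RingHom.ker_ne_top ψ
  obtain ⟨B, hB, hI⟩ := Ideal.image_subset_nonunits_valuationSubring (RingHom.ker ψ) hker
  have hB1 : ∀ x ∈ R, B.valuation x ≤ 1 := fun x hx => (B.valuation_le_one_iff x).2 (hB hx)
  have hB2 : ∀ (x : k) (hx : x ∈ R), φ ⟨x, hx⟩ = 0 → B.valuation x < 1 := by
    intro x hx h
    have h1 : x ∈ B.nonunits := hI ⟨⟨x, hx⟩, h, rfl⟩
    exact (ValuationSubring.mem_nonunits_iff B).1 h1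
  have hLR : ∀ z : L, algebraMap L k z ∈ R := fun z => R.algebraMap_mem z
  have hunit : ∀ x : k, x ≠ 0 → x ∈ R → x⁻¹ ∈ R → B.valuation x = 1 := by
    intro x hx0 hx hx'
    have h1 := hB1 x hx
    have h2 := hB1 _ hx'
    rw [map_inv₀] at h2
    have hne : B.valuation x ≠ 0 := (Valuation.ne_zero_iff _).2 hx0
    refine le_antisymm h1 ?_
    by_contra hlt
    rw [not_le] at hlt
    have h3 : B.valuation x * (B.valuation x)⁻¹ = 1 := mul_inv_cancel₀ hne
    have h4 : B.valuation x * (B.valuation x)⁻¹ < 1 := mul_lt_one_of_lt_of_le hlt h2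
    rw [h3] at h4
    exact lt_irrefl _ h4
  refine ⟨B, fun x => if h : x ∈ R then φ ⟨x, h⟩ else 0, ?_, ?_, ?_⟩
  · have h0 : (0 : k) ∈ R := R.zero_mem
    simp only [dif_pos h0]
    exact φ.map_zero
  · intro z hz
    refine hunit _ ((map_ne_zero (algebraMap L k)).2 hz) (hLR z) ?_
    rw [← map_inv₀]
    exact hLR _
  · intro s hs
    simp only [dif_pos (hSR s hs)]
    refine ⟨?_, ?_⟩
    · refine hB2 _ (R.sub_mem (hSR s hs) (hLR _)) ?_
      have h1 : φ ⟨s - algebraMap L k (φ ⟨s, hSR s hs⟩), R.sub_mem (hSR s hs) (hLR _)⟩ =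
          φ ⟨s, hSR s hs⟩ - φ (algebraMap L R (φ ⟨s, hSR s hs⟩)) := by
        rw [← map_sub]
        rfl
      rw [h1, hφL, sub_self]
    · intro hs0 h
      have h1 := hB2 s (hSR s hs) h
      rw [hunit s hs0 (hSR s hs) (hSR' s hs)] at h1
      exact lt_irrefl _ h1

end Pool.Agent.H16.ZW.Spec
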