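import Pool.Agent.H16.ZW.SpecA

/-!
# Reductions of values of polynomials
-/

open MvPolynomial

universe u

namespace Pool.Agent.H16.ZW.Spec

variable {L : Type} [Field L] {k : Type u} [Field k] [Algebra L k] {B : ValuationSubring k}

section arith

variable (hB : ∀ z : L, z ≠ 0 → B.valuation (algebraMap L k z) = 1)

include hB

theorem val_le (z : L) : B.valuation (algebraMap L k z) ≤ 1 := by
  by_cases hz : z = 0
  · rw [hz, map_zero, map_zero]
    exact zero_le_one
  · exact (hB z hz).le

theorem Red.le {x : k} {z : L} (h : Red B x z) : B.valuation x ≤ 1 := by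
  have h1 : x = (x - algebraMap L k z) + algebraMap L k z := by ring
  rw [h1]
  exact (B.valuation.map_add _ _).trans
    (max_le (le_of_lt (show B.valuation (x - algebraMap L k z) < 1 from h)) (val_le hB z))

theorem Red.val {x : k} {z : L} (h : Red B x z) (hz : z ≠ 0) : B.valuation x = 1 := by
  have h1 : x = (x - algebraMap L k z) + algebraMap L k z := by ring
  rw [h1, Valuation.map_add_eq_of_lt_right, hB z hz]
  rw [hB z hz]
  exact h

theorem Red.ne {x : k} {z : L} (h : Red B x z) (hz : z ≠ 0) : x ≠ 0 := by
  rintro rfl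
  have := h.val hB hz
  rw [map_zero] at this
  exact zero_ne_one this

theorem Red.unique {x : k} {z z' : L} (h : Red B x z) (h' : Red B x z') : z = z' := by
  by_contra hne
  have h1 : B.valuation (algebraMap L k (z - z')) < 1 := by
    have h2 : algebraMap L k (z - z') = (x - algebraMap L k z') - (x - algebraMap L k z) := by
      rw [map_sub]
      ring
    rw [h2]
    exact (B.valuation.map_sub _ _).trans_lt (max_lt h' h)
  rw [hB _ (sub_ne_zero.2 hne)] at h1
  exact lt_irrefl _ h1

theorem Red.mul {x y : k} {z w : L} (h : Red B x z) (h' : Red B y w) : Red B (x * y) (z * w) := by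
  unfold Red
  have h1 : x * y - algebraMap L k (z * w) =
      (x - algebraMap L k z) * y + algebraMap L k z * (y - algebraMap L k w) := by
    rw [map_mul]
    ring
  rw [h1]
  refine (B.valuation.map_add _ _).trans_lt (max_lt ?_ ?_)
  · rw [map_mul]
    exact mul_lt_one_of_lt_of_le h (h'.le hB)
  · rw [map_mul, mul_comm]
    exact mul_lt_one_of_lt_of_le h' (val_le hB z)

theorem Red.inv {x : k} {z : L} (h : Red B x z) (hz : z ≠ 0) : Red B x⁻¹ z⁻¹ := by
  unfold Red
  have hx := h.ne hB hz
  have hz' : algebraMap L k z ≠ 0 := (map_ne_zero _).2 hz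
  have h1 : x⁻¹ - algebraMap L k z⁻¹ = -(x⁻¹ * (algebraMap L k z)⁻¹ * (x - algebraMap L k z)) := by
    rw [map_inv₀]
    field_simp
    ring
  rw [h1, Valuation.map_neg, map_mul, map_mul, map_inv₀, map_inv₀, h.val hB hz, hB z hz, inv_one,
    one_mul, one_mul]
  exact h

end arith

theorem Red.of (z : L) : Red B (algebraMap L k z) z := by
  unfold Red
  rw [sub_self, map_zero]
  exact zero_lt_one

theorem Red.zero : Red B (0 : k) (0 : L) := by
  have := Red.of (B := B) (0 : L)
  rwa [map_zero] at this

theorem Red.one : Red B (1 : k) (1 : L) := by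
  have := Red.of (B := B) (1 : L)
  rwa [map_one] at this

theorem Red.add {x y : k} {z w : L} (h : Red B x z) (h' : Red B y w) : Red B (x + y) (z + w) := by
  unfold Red
  have h1 : x + y - algebraMap L k (z + w) =
      (x - algebraMap L k z) + (y - algebraMap L k w) := by
    rw [map_add]
    ring
  rw [h1]
  exact (B.valuation.map_add _ _).trans_lt (max_lt h h')

theorem Red.sum {ι : Type} (s : Finset ι) (x : ι → k) (z : ι → L) (h : ∀ i ∈ s, Red B (x i) (z i)) :
    Red B (∑ i ∈ s, x i) (∑ i ∈ s, z i) := by
  classical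
  induction s using Finset.induction_on with
  | empty =>
    rw [Finset.sum_empty, Finset.sum_empty]
    exact Red.zero
  | insert i s hi ih =>
    rw [Finset.sum_insert hi, Finset.sum_insert hi]
    exact (h i (Finset.mem_insert_self i s)).add
      (ih fun j hj => h j (Finset.mem_insert_of_mem hj))

section arith2

variable (hB : ∀ z : L, z ≠ 0 → B.valuation (algebraMap L k z) = 1)

include hB

theorem Red.pow {x : k} {z : L} (h : Red B x z) (n : ℕ) : Red B (x ^ n) (z ^ n) := by
  induction n with
  | zero =>
    rw [pow_zero, pow_zero]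
    exact Red.one
  | succ n ih =>
    rw [pow_succ, pow_succ]
    exact ih.mul hB h

theorem Red.zpow {x : k} {z : L} (h : Red B x z) (hz : z ≠ 0) (n : ℤ) :
    Red B (x ^ n) (z ^ n) := by
  cases n with
  | ofNat n =>
    rw [Int.ofNat_eq_natCast, zpow_natCast, zpow_natCast]
    exact h.pow hB n
  | negSucc n =>
    rw [zpow_negSucc, zpow_negSucc]
    exact (h.pow hB (n + 1)).inv hB (pow_ne_zero _ hz)

theorem Red.prod {ι : Type} (s : Finset ι) (x : ι → k) (z : ι → L)
    (h : ∀ i ∈ s, Red B (x i) (z i)) : Red B (∏ i ∈ s, x i) (∏ i ∈ s, z i) := by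
  classical
  induction s using Finset.induction_on with
  | empty =>
    rw [Finset.prod_empty, Finset.prod_empty]
    exact Red.one
  | insert i s hi ih =>
    rw [Finset.prod_insert hi, Finset.prod_insert hi]
    exact (h i (Finset.mem_insert_self i s)).mul hB
      (ih fun j hj => h j (Finset.mem_insert_of_mem hj))

theorem Red.div {x y : k} {z w : L} (h : Red B x z) (h' : Red B y w) (hw : w ≠ 0) :
    Red B (x / y) (z / w) := by
  rw [div_eq_mul_inv, div_eq_mul_inv]
  exact h.mul hB (h'.inv hB hw)

end arith2

/-- the reduction of a polynomial -/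
noncomputable def rp {N : ℕ} (a : k → L) (F : MvPolynomial (Fin N) k) :
    MvPolynomial (Fin N) L :=
  ∑ m ∈ F.support, monomial m (a (coeff m F))

omit [Algebra L k] in
theorem coeff_rp {N : ℕ} (a : k → L) (ha : a 0 = 0) (F : MvPolynomial (Fin N) k)
    (m : Fin N →₀ ℕ) : coeff m (rp a F) = a (coeff m F) := by
  classical
  unfold rp
  rw [coeff_sum]
  simp only [coeff_monomial]
  by_cases hm : m ∈ F.support
  · rw [Finset.sum_eq_single m]
    · rw [if_pos rfl]
    · intro b _ hb
      rw [if_neg hb]
    · intro h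
      exact absurd hm h
  · rw [Finset.sum_eq_zero, notMem_support_iff.1 hm, ha]
    intro b hb
    rw [if_neg]
    rintro rfl
    exact hm hb

theorem eval_rp {N : ℕ} (hB : ∀ z : L, z ≠ 0 → B.valuation (algebraMap L k z) = 1) (a : k → L)
    (F : MvPolynomial (Fin N) k)
    (hF : ∀ m ∈ F.support, Red B (coeff m F) (a (coeff m F))) (x : Fin N → k) (z : Fin N → L)
    (h : ∀ i, Red B (x i) (z i)) : Red B (eval x F) (eval z (rp a F)) := by
  classical
  rw [eval_eq, rp, map_sum]
  refine Red.sum _ _ _ fun m hm => ?_
  rw [eval_monomial]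
  refine (hF m hm).mul hB ?_
  rw [Finsupp.prod]
  exact Red.prod hB _ _ _ fun i _ => (h i).pow hB _

theorem rp_ne {N : ℕ} (a : k → L) (ha : a 0 = 0) (F : MvPolynomial (Fin N) k)
    (hF : ∀ m, coeff m F ≠ 0 → a (coeff m F) ≠ 0) (hF0 : F ≠ 0) : rp a F ≠ 0 := by
  obtain ⟨m, hm⟩ := MvPolynomial.ne_zero_iff.1 hF0
  intro h
  have h1 := coeff_rp a ha F m
  rw [h, coeff_zero] at h1
  exact hF m hm h1.symm

theorem support_rp {N : ℕ} (a : k → L) (ha : a 0 = 0) (F : MvPolynomial (Fin N) k) :
    (rp a F).support ⊆ F.support := by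
  intro m hm
  rw [mem_support_iff, coeff_rp a ha] at hm
  rw [mem_support_iff]
  intro h
  rw [h, ha] at hm
  exact hm rfl

theorem support_rp_sub {N : ℕ} (a : k → L) (ha : a 0 = 0) (F G : MvPolynomial (Fin N) k) :
    (rp a F - rp a G).support ⊆ (F - G).support := by
  intro m hm
  rw [mem_support_iff, coeff_sub, coeff_rp a ha, coeff_rp a ha] at hm
  rw [mem_support_iff, coeff_sub]
  intro h
  rw [sub_eq_zero.1 h, sub_self] at hm
  exact hm rfl

/-- a relation with coefficients in `k` between reductions of points yields one with coefficients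
in `L` -/
theorem dense_of_red {N : ℕ}
    (hB : ∀ z : L, z ≠ 0 → B.valuation (algebraMap L k z) = 1)
    (x : ℕ → Fin N → k) (z : ℕ → Fin N → L) (hx : ∀ n i, Red B (x n i) (z n i))
    (hz : ∀ R : MvPolynomial (Fin N) L, (∀ n, eval (z n) R = 0) → R = 0)
    (F : MvPolynomial (Fin N) k) (hF : ∀ n, eval (x n) F = 0) : F = 0 := by
  classical
  by_contra hF0
  -- a coefficient of maximal valuation
  obtain ⟨m₀, hm₀, hmax⟩ := Finset.exists_max_image F.support
    (fun m => B.valuation (coeff m F)) (MvPolynomial.support_nonempty.2 hF0)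
  have hc0 : coeff m₀ F ≠ 0 := mem_support_iff.1 hm₀
  set G : MvPolynomial (Fin N) k := C (coeff m₀ F)⁻¹ * F with hG
  have hGc : ∀ m, coeff m G = (coeff m₀ F)⁻¹ * coeff m F := fun m => coeff_C_mul m _ _
  have hG1 : coeff m₀ G = 1 := by rw [hGc, inv_mul_cancel₀ hc0]
  have hGle : ∀ m, B.valuation (coeff m G) ≤ 1 := by
    intro m
    rw [hGc, map_mul, map_inv₀]
    by_cases hm : m ∈ F.support
    · have h1 := hmax m hm
      have h2 : B.valuation (coeff m₀ F) ≠ 0 := (Valuation.ne_zero_iff _).2 hc0
      calc (B.valuation (coeff m₀ F))⁻¹ * B.valuation (coeff m F)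
          ≤ (B.valuation (coeff m₀ F))⁻¹ * B.valuation (coeff m₀ F) := by gcongr
        _ = 1 := inv_mul_cancel₀ h2
    · rw [notMem_support_iff.1 hm, map_zero, mul_zero]
      exact zero_le_one
  have hGB : ∀ m, coeff m G ∈ B := fun m => (B.valuation_le_one_iff _).1 (hGle m)
  -- the residue field as an extension of `L`
  have hLB : ∀ z : L, algebraMap L k z ∈ B := fun z => (B.valuation_le_one_iff _).1 (val_le hB z)
  let ι : L →+* B :=
    { toFun := fun z => ⟨algebraMap L k z, hLB z⟩
      map_one' := Subtype.ext (map_one _)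
      map_mul' := fun a b => Subtype.ext (map_mul _ a b)
      map_zero' := Subtype.ext (map_zero _)
      map_add' := fun a b => Subtype.ext (map_add _ a b) }
  let res : B →+* IsLocalRing.ResidueField B := IsLocalRing.residue B
  let _ : Algebra L (IsLocalRing.ResidueField B) := (res.comp ι).toAlgebra
  have hinj : Function.Injective (Algebra.linearMap L (IsLocalRing.ResidueField B)) :=
    (algebraMap L (IsLocalRing.ResidueField B)).injective
  obtain ⟨lam, hlam⟩ := LinearMap.exists_leftInverse_of_injective
    (Algebra.linearMap L (IsLocalRing.ResidueField B)) (LinearMap.ker_eq_bot.2 hinj)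
  have hlam1 : lam 1 = 1 := by
    have h1 := LinearMap.congr_fun hlam 1
    rw [LinearMap.comp_apply, Algebra.linearMap_apply, map_one, LinearMap.id_apply] at h1
    exact h1
  set H : MvPolynomial (Fin N) L :=
    ∑ m ∈ G.support, monomial m (lam (res ⟨coeff m G, hGB m⟩)) with hH
  have hH0 : H ≠ 0 := by
    intro h
    have h1 : coeff m₀ H = 1 := by
      rw [hH, coeff_sum]
      simp only [coeff_monomial]
      rw [Finset.sum_eq_single m₀]
      · rw [if_pos rfl]
        have h2 : (⟨coeff m₀ G, hGB m₀⟩ : B) = 1 := Subtype.ext hG1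
        rw [h2, map_one, hlam1]
      · intro b _ hb
        rw [if_neg hb]
      · intro h
        rw [notMem_support_iff, hG1] at h
        exact absurd h one_ne_zero
    rw [h, coeff_zero] at h1
    exact zero_ne_one h1
  apply hH0
  refine hz H fun n => ?_
  -- the relation in the residue field
  have hrel : ∑ m ∈ G.support, res ⟨coeff m G, hGB m⟩ *
      algebraMap L (IsLocalRing.ResidueField B) (m.prod fun i e => z n i ^ e) = 0 := by
    have hxB : ∀ i, x n i ∈ B := fun i => (B.valuation_le_one_iff _).1 ((hx n i).le hB)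
    have h1 : ∀ m : Fin N →₀ ℕ, Red B (m.prod fun i e => x n i ^ e)
        (m.prod fun i e => z n i ^ e) := by
      intro m
      rw [Finsupp.prod, Finsupp.prod]
      exact Red.prod hB _ _ _ fun i _ => (hx n i).pow hB _
    have h2 : B.valuation (∑ m ∈ G.support, coeff m G *
        algebraMap L k (m.prod fun i e => z n i ^ e)) < 1 := by
      have h3 : ∑ m ∈ G.support, coeff m G * algebraMap L k (m.prod fun i e => z n i ^ e) =
          -∑ m ∈ G.support, coeff m G * ((m.prod fun i e => x n i ^ e) -
            algebraMap L k (m.prod fun i e => z n i ^ e)) := by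
        have h4 : ∑ m ∈ G.support, coeff m G * (m.prod fun i e => x n i ^ e) = 0 := by
          have h5 : eval (x n) G = 0 := by rw [hG, map_mul, hF n, mul_zero]
          rw [← h5, eval_eq]
          rfl
        have h6 : ∑ m ∈ G.support, coeff m G * ((m.prod fun i e => x n i ^ e) -
            algebraMap L k (m.prod fun i e => z n i ^ e)) =
            ∑ m ∈ G.support, coeff m G * (m.prod fun i e => x n i ^ e) -
            ∑ m ∈ G.support, coeff m G * algebraMap L k (m.prod fun i e => z n i ^ e) := by
          rw [← Finset.sum_sub_distrib]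
          exact Finset.sum_congr rfl fun m _ => by ring
        rw [h6, h4, zero_sub, neg_neg]
      rw [h3, Valuation.map_neg]
      refine Valuation.map_sum_lt _ one_ne_zero fun m _ => ?_
      rw [map_mul, mul_comm]
      exact mul_lt_one_of_lt_of_le (h1 m) (hGle m)
    have h3 : (∑ m ∈ G.support, (⟨coeff m G, hGB m⟩ : B) * ι (m.prod fun i e => z n i ^ e)) ∈
        IsLocalRing.maximalIdeal B := by
      rw [ValuationSubring.valuation_lt_one_iff]
      refine lt_of_eq_of_lt (congrArg B.valuation ?_) h2
      push_cast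
      rfl
    have h4 : res (∑ m ∈ G.support, (⟨coeff m G, hGB m⟩ : B) *
        ι (m.prod fun i e => z n i ^ e)) = 0 := Ideal.Quotient.eq_zero_iff_mem.2 h3
    rw [map_sum] at h4
    rw [← h4]
    refine Finset.sum_congr rfl fun m _ => ?_
    rw [map_mul]
    rfl
  have h1 := congrArg lam hrel
  rw [map_sum, map_zero] at h1
  rw [hH, map_sum, ← h1]
  refine Finset.sum_congr rfl fun m _ => ?_
  rw [eval_monomial, mul_comm (res _), ← Algebra.smul_def, map_smul, smul_eq_mul, mul_comm]

end Pool.Agent.H16.ZW.Spec
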