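import Pool.Agent.H16.ZW.SpecB
import Pool.Agent.H16.ZW.MainE

/-!
# The main theorem over algebraically closed fields of characteristic zero
-/

open MvPolynomial

universe u

namespace Pool.Agent.H16.ZW.Spec

open Pool.Agent.H12.ZD (v)

/-- elements of an extension of the algebraic numbers which are algebraic over `ℚ` -/
theorem exists_of_isAlgebraic {k : Type u} [Field k] [CharZero k] [Algebra Qb k] {x : k}
    (hx : IsAlgebraic ℚ x) : ∃ z : Qb, algebraMap Qb k z = x := by
  have : IsScalarTower ℚ Qb k := IsScalarTower.of_algebraMap_eq' (RingHom.ext_rat _ _)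
  have h1 : IsAlgebraic Qb x := hx.tower_top Qb
  have h2 : IsIntegral Qb x := h1.isIntegral
  have h3 : (minpoly Qb x).degree = 1 :=
    IsAlgClosed.degree_eq_one_of_irreducible Qb (minpoly.irreducible h2)
  exact minpoly.mem_range_of_degree_eq_one Qb x h3

/-- the coefficients of a polynomial -/
noncomputable def cf {k : Type u} [Field k] {N : ℕ} (F : MvPolynomial (Fin N) k) : Finset k := by
  classical
  exact F.support.image fun m => coeff m F

theorem mem_cf {k : Type u} [Field k] {N : ℕ} {F : MvPolynomial (Fin N) k} {m : Fin N →₀ ℕ}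
    (h : coeff m F ≠ 0) : coeff m F ∈ cf F := by
  classical
  exact Finset.mem_image_of_mem _ (mem_support_iff.2 h)

/-- the main theorem over a field containing the algebraic numbers -/
theorem gen_main (hM : T_MAIN) {k : Type u} [Field k] [CharZero k] [Algebra Qb k] {N : ℕ}
    (P Q PL QL : Fin N → MvPolynomial (Fin N) k) (U V : MvPolynomial (Fin N) k)
    (w : Fin N → ℤ) (A : Matrix (Fin N) (Fin N) ℤ) (c : Fin N → k) (d μU μV : ℤ)
    (a b : Fin N → ℤ) (hU0 : U ≠ 0) (hV0 : V ≠ 0) (hQ0 : ∀ i, QL i ≠ 0) (hc0 : ∀ i, c i ≠ 0)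
    (hdet : A.det ≠ 0) (heig : ∀ i, ∑ j, A i j * w j = d * w i) (hδ : 2 ≤ d + μU - μV)
    (hU : ∀ m ∈ U.support, ∑ j, (m j : ℤ) * w j = μU)
    (hV : ∀ m ∈ V.support, ∑ j, (m j : ℤ) * w j = μV)
    (hPL : ∀ i, ∀ m ∈ (PL i).support, ∑ j, (m j : ℤ) * w j = a i)
    (hQL : ∀ i, ∀ m ∈ (QL i).support, ∑ j, (m j : ℤ) * w j = b i)
    (hP : ∀ i, ∀ m ∈ (P i - PL i).support, ∑ j, (m j : ℤ) * w j < a i)
    (hQ : ∀ i, ∀ m ∈ (Q i - QL i).support, ∑ j, (m j : ℤ) * w j < b i)
    (hlead : ∀ i, algebraMap (MvPolynomial (Fin N) k) (FractionRing (MvPolynomial (Fin N) k))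
        (PL i) /
      algebraMap (MvPolynomial (Fin N) k) (FractionRing (MvPolynomial (Fin N) k)) (QL i) =
      algebraMap (MvPolynomial (Fin N) k) (FractionRing (MvPolynomial (Fin N) k)) (C (c i)) *
        (∏ j, algebraMap (MvPolynomial (Fin N) k) (FractionRing (MvPolynomial (Fin N) k))
          (X j) ^ A i j) *
        (algebraMap (MvPolynomial (Fin N) k) (FractionRing (MvPolynomial (Fin N) k)) U /
          algebraMap (MvPolynomial (Fin N) k)
            (FractionRing (MvPolynomial (Fin N) k)) V) ^ w i)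
    (hNF : ∀ γ : Fin N → ℤ, γ ≠ 0 → ∑ i, γ i * w i = 0 → ∀ l, 1 ≤ l →
      Matrix.vecMul γ (A ^ l) = γ →
      IsAlgebraic ℚ (∏ i, c i ^ (Matrix.vecMul γ (∑ j ∈ Finset.range l, A ^ j)) i) ∧
      ∏ i, c i ^ (Matrix.vecMul γ (∑ j ∈ Finset.range l, A ^ j)) i ≠ 1) :
    ∃ M : ℕ, ∀ p : Nat.Primes, M < (p : ℕ) → ∃ (t : Fin N → Qb) (ε : ℝ), 0 < ε ∧
      ∀ x : Fin N → Qb, (∀ i, v p (x i - t i) < ε) →
        (∀ n i, eval ((fun (y : Fin N → k) (j : Fin N) => eval y (P j) / eval y (Q j))^[n]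
          (fun j => algebraMap Qb k (x j))) (Q i) ≠ 0) ∧
        ∀ R : MvPolynomial (Fin N) k,
          (∀ n, eval ((fun (y : Fin N → k) (j : Fin N) => eval y (P j) / eval y (Q j))^[n]
            (fun j => algebraMap Qb k (x j))) R = 0) → R = 0 := by
  classical
  set S : Finset k := (Finset.univ.biUnion fun i : Fin N =>
    cf (P i) ∪ cf (Q i) ∪ cf (PL i) ∪ cf (QL i) ∪ {c i}) ∪ cf U ∪ cf V with hS
  obtain ⟨B, r, r0, hB, hr⟩ := exists_red (L := Qb) S
  have hsub : ∀ i, cf (P i) ∪ cf (Q i) ∪ cf (PL i) ∪ cf (QL i) ∪ {c i} ⊆ S := by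
    intro i s hs
    rw [hS]
    refine Finset.mem_union_left _ (Finset.mem_union_left _ ?_)
    exact Finset.mem_biUnion.2 ⟨i, Finset.mem_univ i, hs⟩
  have sP : ∀ i, cf (P i) ⊆ S := fun i s hs => hsub i (by simp [hs])
  have sQ : ∀ i, cf (Q i) ⊆ S := fun i s hs => hsub i (by simp [hs])
  have sPL : ∀ i, cf (PL i) ⊆ S := fun i s hs => hsub i (by simp [hs])
  have sQL : ∀ i, cf (QL i) ⊆ S := fun i s hs => hsub i (by simp [hs])
  have sc : ∀ i, c i ∈ S := fun i => hsub i (by simp)
  have sU : cf U ⊆ S := fun s hs => by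
    rw [hS]
    exact Finset.mem_union_left _ (Finset.mem_union_right _ hs)
  have sV : cf V ⊆ S := fun s hs => by
    rw [hS]
    exact Finset.mem_union_right _ hs
  have hred : ∀ F : MvPolynomial (Fin N) k, cf F ⊆ S →
      ∀ m ∈ F.support, Red B (coeff m F) (r (coeff m F)) := fun F hF m hm =>
    (hr _ (hF (mem_cf (mem_support_iff.1 hm)))).1
  have hnz : ∀ F : MvPolynomial (Fin N) k, cf F ⊆ S →
      ∀ m, coeff m F ≠ 0 → r (coeff m F) ≠ 0 := fun F hF m hm =>
    (hr _ (hF (mem_cf hm))).2 hm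
  have hev : ∀ F : MvPolynomial (Fin N) k, cf F ⊆ S → ∀ (x : Fin N → k) (z : Fin N → Qb),
      (∀ i, Red B (x i) (z i)) → Red B (eval x F) (eval z (rp r F)) := fun F hF x z h =>
    eval_rp hB r F (hred F hF) x z h
  have hcr : ∀ i, Red B (c i) (r (c i)) := fun i => (hr _ (sc i)).1
  have hcn : ∀ i, r (c i) ≠ 0 := fun i => (hr _ (sc i)).2 (hc0 i)
  obtain ⟨M, hM'⟩ := hM N ⟨w, A, fun i => r (c i), rp r U, rp r V, fun i => rp r (P i),
    fun i => rp r (Q i), fun i => rp r (PL i), fun i => rp r (QL i), d, μU, μV,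
    (d + μU - μV).toNat, a, b⟩
    { det := hdet
      eig := heig
      c0 := hcn
      U0 := rp_ne r r0 U (hnz U sU) hU0
      V0 := rp_ne r r0 V (hnz V sV) hV0
      QL0 := fun i => rp_ne r r0 (QL i) (hnz _ (sQL i)) (hQ0 i)
      hU := fun m hm => hU m (support_rp r r0 U hm)
      hV := fun m hm => hV m (support_rp r r0 V hm)
      hPL := fun i m hm => hPL i m (support_rp r r0 _ hm)
      hQL := fun i m hm => hQL i m (support_rp r r0 _ hm)
      hP := fun i m hm => hP i m (support_rp_sub r r0 _ _ hm)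
      hQ := fun i m hm => hQ i m (support_rp_sub r r0 _ _ hm)
      idn := fun x hx hxU hxV hxQ i => by
        have h0 : ∀ j, Red B (algebraMap Qb k (x j)) (x j) := fun j => Red.of (x j)
        have hu := hev U sU _ _ h0
        have hv := hev V sV _ _ h0
        have hp := hev (PL i) (sPL i) _ _ h0
        have hq := hev (QL i) (sQL i) _ _ h0
        have h1 := idn_gen U V (PL i) (QL i) (c i) (A i) (w i) (hlead i)
          (fun j => algebraMap Qb k (x j)) (fun j => (map_ne_zero _).2 (hx j))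
          (hu.ne hB hxU) (hv.ne hB hxV) (hq.ne hB (hxQ i))
        have h2 : Red B (eval (fun j => algebraMap Qb k (x j)) (PL i))
            (eval x (rp r (QL i)) * r (c i) * mon x (A i) *
              (eval x (rp r U) / eval x (rp r V)) ^ w i) := by
          rw [h1]
          refine ((hq.mul hB (hcr i)).mul hB ?_).mul hB ?_
          · unfold mon
            exact Red.prod hB _ _ _ fun j _ => (h0 j).zpow hB (hx j) _
          · exact (hu.div hB hv hxV).zpow hB (div_ne_zero hxU hxV) _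
        exact hp.unique hB h2
      del := by
        show (((d + μU - μV).toNat : ℕ) : ℤ) = d + μU - μV
        rw [Int.toNat_of_nonneg (by omega)]
      two := by
        show 2 ≤ (d + μU - μV).toNat
        omega }
    (fun γ hγ0 hγ l hl hγl hone => by
      obtain ⟨h1, h2⟩ := hNF γ hγ0 hγ l hl hγl
      obtain ⟨z, hz⟩ := exists_of_isAlgebraic h1
      have h3 : Red B (∏ i, c i ^ (Matrix.vecMul γ (∑ j ∈ Finset.range l, A ^ j)) i)
          (∏ i, r (c i) ^ (Matrix.vecMul γ (∑ j ∈ Finset.range l, A ^ j)) i) :=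
        Red.prod hB _ _ _ fun i _ => (hcr i).zpow hB (hcn i) _
      have h4 : (∏ i, r (c i) ^ (Matrix.vecMul γ (∑ j ∈ Finset.range l, A ^ j)) i) = 1 := hone
      rw [h4, ← hz] at h3
      have h5 := (Red.of (B := B) z).unique hB h3
      rw [h5, map_one] at hz
      exact h2 hz.symm)
  refine ⟨M, fun p hp => ?_⟩
  obtain ⟨t, ε, hε, hx⟩ := hM' p hp
  refine ⟨t, ε, hε, fun x hxt => ?_⟩
  obtain ⟨hdef, hdense⟩ := hx x hxt
  have horb : ∀ n i, Red B
      ((fun (y : Fin N → k) (j : Fin N) => eval y (P j) / eval y (Q j))^[n]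
        (fun j => algebraMap Qb k (x j)) i)
      ((fun (y : Fin N → Qb) (j : Fin N) =>
        eval y (rp r (P j)) / eval y (rp r (Q j)))^[n] x i) := by
    intro n
    induction n with
    | zero => exact fun i => Red.of (x i)
    | succ n ih =>
      intro i
      rw [Function.iterate_succ_apply', Function.iterate_succ_apply']
      exact (hev (P i) (sP i) _ _ ih).div hB (hev (Q i) (sQ i) _ _ ih) (hdef n i)
  refine ⟨fun n i => (hev (Q i) (sQ i) _ _ (horb n)).ne hB (hdef n i), fun R hR => ?_⟩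
  exact dense_of_red hB _ _ horb hdense R hR

/-- a non-empty ball of algebraic points contains points outside any hypersurface -/
theorem exists_in_ball_gen {k : Type u} [Field k] [Algebra Qb k] {N : ℕ} (p : Nat.Primes)
    (t : Fin N → Qb) {ε : ℝ} (hε : 0 < ε) (b : MvPolynomial (Fin N) k) (hb : b ≠ 0) :
    ∃ x : Fin N → Qb, (∀ i, v p (x i - t i) < ε) ∧
      eval (fun j => algebraMap Qb k (x j)) b ≠ 0 := by
  by_contra hcon
  push Not at hcon
  apply hb
  have hinf : ∀ i, ((fun a => algebraMap Qb k a) '' {a : Qb | v p (a - t i) < ε}).Infinite := by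
    intro i
    refine Set.Infinite.image (algebraMap Qb k).injective.injOn ?_
    have hp1 : (1 : ℝ) < (p : ℝ) := by exact_mod_cast p.2.one_lt
    have hpi : (p : ℝ)⁻¹ < 1 := inv_lt_one_of_one_lt₀ hp1
    have hpi0 : (0 : ℝ) < (p : ℝ)⁻¹ := inv_pos.2 (by linarith)
    obtain ⟨m, hm⟩ := exists_pow_lt_of_lt_one hε hpi
    refine Set.infinite_of_injective_forall_mem
      (f := fun n : ℕ => t i + ((p : ℕ) : Qb) ^ (m + n)) ?_ ?_
    · intro a b hab
      have h1 : ((p : ℕ) : Qb) ^ (m + a) = ((p : ℕ) : Qb) ^ (m + b) := add_left_cancel hab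
      have h2 : (p : ℕ) ^ (m + a) = (p : ℕ) ^ (m + b) := by exact_mod_cast h1
      have h3 := Nat.pow_right_injective p.2.two_le h2
      omega
    · intro n
      show v p (t i + ((p : ℕ) : Qb) ^ (m + n) - t i) < ε
      rw [add_sub_cancel_left, Pool.Agent.H12.ZD.v_pow, Pool.Agent.H12.ZD.v_self]
      refine lt_of_le_of_lt ?_ hm
      exact pow_le_pow_of_le_one hpi0.le hpi.le (Nat.le_add_right m n)
  refine MvPolynomial.funext_set (fun i => (fun a => algebraMap Qb k a) ''
    {a : Qb | v p (a - t i) < ε}) hinf fun x hx => ?_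
  rw [map_zero]
  have h1 : ∀ i, ∃ a : Qb, v p (a - t i) < ε ∧ algebraMap Qb k a = x i := fun i =>
    hx i (Set.mem_univ i)
  choose z hz hzx using h1
  have h2 : x = fun j => algebraMap Qb k (z j) := funext fun j => (hzx j).symm
  rw [h2]
  exact hcon z hz

end Pool.Agent.H16.ZW.Spec
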